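import Pool.Agent.H3.EP.UniLin

/-!
# Chains of minimal points over a finite range
-/

set_option autoImplicit false

open Real

namespace Pool.Agent.H52.WG

open H3EP

private lemma chain_step {V : Type*} (h l : V → ℝ) (hfin : ∀ N : ℝ, {v | h v ≤ N}.Finite)
    (X Y : ℝ) (hX : 0 < X)
    (hcov : ∀ Q, X ≤ Q → Q ≤ Y → ∃ v, h v ≤ Q ∧ l v ≤ 1 / Q) (hXY : X ≤ Y)
    (v : V) (hmin : ∀ u, h u ≤ max X (h v) → l v ≤ l u) (hlt : 1 / Y < l v) :
    ∃ v' : V, (∀ u, h u ≤ max X (h v') → l v' ≤ l u) ∧ X < h v' ∧ h v' ≤ Y ∧ h v < h v' ∧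
      l v' < l v ∧ l v ≤ 1 / h v' := by
  obtain ⟨u0, hu0, hlu0⟩ := hcov Y hXY le_rfl
  have hTfin : {u | h u ≤ Y ∧ l u < l v}.Finite := (hfin Y).subset (fun u hu => hu.1)
  obtain ⟨u1, hu1, hu1m⟩ := Set.exists_min_image {u | h u ≤ Y ∧ l u < l v} h hTfin
    ⟨u0, hu0, lt_of_le_of_lt hlu0 hlt⟩
  obtain ⟨v', hv', hv'm⟩ := Set.exists_min_image {u | h u ≤ h u1} l (hfin _) ⟨u1, le_refl (h u1)⟩
  have hv'l : l v' < l v := lt_of_le_of_lt (hv'm u1 (le_refl (h u1))) hu1.2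
  have hv'Y : h v' ≤ Y := le_trans hv' hu1.1
  have heq : h v' = h u1 := le_antisymm hv' (hu1m v' ⟨hv'Y, hv'l⟩)
  have hbig : max X (h v) < h v' := by
    by_contra hcon
    push Not at hcon
    rw [heq] at hcon
    have := hmin u1 hcon
    linarith [hu1.2]
  have hXv : X < h v' := (le_max_left _ _).trans_lt hbig
  have hvv : h v < h v' := (le_max_right _ _).trans_lt hbig
  refine ⟨v', ?_, hXv, hv'Y, hvv, hv'l, ?_⟩
  · intro u hu
    rw [max_eq_right hXv.le, heq] at hu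
    exact hv'm u hu
  · by_contra hcon
    push Not at hcon
    have hs0 : 0 < h v' := hX.trans hXv
    have hlv : 0 < l v := (one_div_pos.mpr hs0).trans hcon
    have h1 : 1 / l v < h v' := by
      rw [div_lt_iff₀ hlv]
      rw [div_lt_iff₀ hs0] at hcon
      linarith [mul_comm (l v) (h v')]
    obtain ⟨Q, hQ1, hQ2⟩ := exists_between (max_lt hXv h1)
    have hQX : X < Q := (le_max_left _ _).trans_lt hQ1
    have hQl : 1 / l v < Q := (le_max_right _ _).trans_lt hQ1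
    obtain ⟨u, hu, hlu⟩ := hcov Q hQX.le (hQ2.le.trans hv'Y)
    have hQ0 : 0 < Q := hX.trans hQX
    have h2 : 1 / Q < l v := by
      rw [div_lt_iff₀ hQ0]
      rw [div_lt_iff₀ hlv] at hQl
      linarith [mul_comm (l v) Q]
    have h3 : l u < l v := lt_of_le_of_lt hlu h2
    have h4 := hu1m u ⟨hu.trans (hQ2.le.trans hv'Y), h3⟩
    rw [← heq] at h4
    linarith

/-- **Chain of minimal points.**  If every `Q` in `[X, Y]` has a point of height at most `Q` and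
size at most `1/Q`, there is a finite chain of minimal points from height `≤ X` to size
`≤ 1/Y`. -/
theorem cover_chain {V : Type*} (h l : V → ℝ) (hfin : ∀ N : ℝ, {v | h v ≤ N}.Finite)
    (X Y : ℝ) (hX : 0 < X) (hXY : X ≤ Y)
    (hcov : ∀ Q, X ≤ Q → Q ≤ Y → ∃ v, h v ≤ Q ∧ l v ≤ 1 / Q) :
    ∃ (k : ℕ) (x : ℕ → V), h (x 0) ≤ X ∧ l (x 0) ≤ 1 / X ∧
      (∀ n < k, X < h (x (n + 1)) ∧ h (x (n + 1)) ≤ Y ∧ h (x n) < h (x (n + 1)) ∧
        l (x (n + 1)) < l (x n) ∧ l (x n) ≤ 1 / h (x (n + 1))) ∧ l (x k) ≤ 1 / Y := by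
  classical
  have key : ∀ m : ℕ, ∀ v : V, (∀ u, h u ≤ max X (h v) → l v ≤ l u) →
      {u | h u ≤ Y ∧ h v < h u}.ncard ≤ m →
      ∃ (k : ℕ) (x : ℕ → V), x 0 = v ∧
        (∀ n < k, X < h (x (n + 1)) ∧ h (x (n + 1)) ≤ Y ∧ h (x n) < h (x (n + 1)) ∧
          l (x (n + 1)) < l (x n) ∧ l (x n) ≤ 1 / h (x (n + 1))) ∧ l (x k) ≤ 1 / Y := by
    intro m
    induction m with
    | zero =>
      intro v hmin hcard
      by_cases hle : l v ≤ 1 / Y
      · exact ⟨0, fun _ => v, rfl, fun n hn => absurd hn (Nat.not_lt_zero n), hle⟩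
      · push Not at hle
        obtain ⟨v', -, -, hv'Y, hvv, -, -⟩ := chain_step h l hfin X Y hX hcov hXY v hmin hle
        have hf : {u | h u ≤ Y ∧ h v < h u}.Finite := (hfin Y).subset (fun u hu => hu.1)
        have := (Set.ncard_pos hf).mpr ⟨v', hv'Y, hvv⟩
        omega
    | succ m ih =>
      intro v hmin hcard
      by_cases hle : l v ≤ 1 / Y
      · exact ⟨0, fun _ => v, rfl, fun n hn => absurd hn (Nat.not_lt_zero n), hle⟩
      · push Not at hle
        obtain ⟨v', hmin', hXv', hv'Y, hvv, hll, hlh⟩ :=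
          chain_step h l hfin X Y hX hcov hXY v hmin hle
        have hf : {u | h u ≤ Y ∧ h v < h u}.Finite := (hfin Y).subset (fun u hu => hu.1)
        have hss : {u | h u ≤ Y ∧ h v' < h u} ⊂ {u | h u ≤ Y ∧ h v < h u} := by
          refine ⟨fun u hu => ⟨hu.1, hvv.trans hu.2⟩, ?_⟩
          intro hcon
          have := hcon (show v' ∈ {u | h u ≤ Y ∧ h v < h u} from ⟨hv'Y, hvv⟩)
          exact lt_irrefl _ this.2
        have hc := Set.ncard_lt_ncard hss hf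
        obtain ⟨k, x, hx0, hx, hxk⟩ := ih v' hmin' (by omega)
        refine ⟨k + 1, fun n => Nat.casesOn n v x, rfl, ?_, hxk⟩
        intro n hn
        cases n with
        | zero =>
          simp only [hx0]
          exact ⟨hXv', hv'Y, hvv, hll, hlh⟩
        | succ n => exact hx n (by omega)
  obtain ⟨w, hw, hlw⟩ := hcov X le_rfl hXY
  obtain ⟨v0, hv0, hv0m⟩ := Set.exists_min_image {u | h u ≤ X} l (hfin X) ⟨w, hw⟩
  obtain ⟨k, x, hx0, hx, hxk⟩ := key _ v0 (fun u hu => hv0m u (by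
    rw [max_eq_left (show h v0 ≤ X from hv0)] at hu; exact hu)) le_rfl
  refine ⟨k, x, ?_, ?_, hx, hxk⟩
  · rw [hx0]; exact hv0
  · rw [hx0]; exact (hv0m w hw).trans hlw

/-- If consecutive triples up to `k` are dependent and consecutive pairs are independent, the
vectors up to `k` lie in the plane of the first two. -/
theorem planar_fin (x : ℕ → Fin 3 → ℤ) (k : ℕ)
    (hind : ∀ n, n + 2 ≤ k → (cr0 (x n) (x (n + 1)) ≠ 0 ∨ cr1 (x n) (x (n + 1)) ≠ 0 ∨
      cr2 (x n) (x (n + 1)) ≠ 0))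
    (hdet : ∀ n, n + 2 ≤ k → det3 (x n) (x (n + 1)) (x (n + 2)) = 0) (n : ℕ) (hn : n ≤ k) :
    cr0 (x 0) (x 1) * x n 0 + cr1 (x 0) (x 1) * x n 1 + cr2 (x 0) (x 1) * x n 2 = 0 := by
  obtain ⟨w0, hw0⟩ : ∃ w0, w0 = cr0 (x 0) (x 1) := ⟨_, rfl⟩
  obtain ⟨w1, hw1⟩ : ∃ w1, w1 = cr1 (x 0) (x 1) := ⟨_, rfl⟩
  obtain ⟨w2, hw2⟩ : ∃ w2, w2 = cr2 (x 0) (x 1) := ⟨_, rfl⟩
  rw [← hw0, ← hw1, ← hw2]
  have z0 : w0 * x 0 0 + w1 * x 0 1 + w2 * x 0 2 = 0 := by
    rw [hw0, hw1, hw2]; unfold cr0 cr1 cr2; ring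
  have z1 : w0 * x 1 0 + w1 * x 1 1 + w2 * x 1 2 = 0 := by
    rw [hw0, hw1, hw2]; unfold cr0 cr1 cr2; ring
  have key : ∀ j, j + 1 ≤ k → (w0 * x j 0 + w1 * x j 1 + w2 * x j 2 = 0) ∧
      (w0 * x (j + 1) 0 + w1 * x (j + 1) 1 + w2 * x (j + 1) 2 = 0) := by
    intro j
    induction j with
    | zero => intro _; exact ⟨z0, z1⟩
    | succ j ih =>
      intro hj
      obtain ⟨h1, h2⟩ := ih (by omega)
      refine ⟨h2, ?_⟩
      have hd := hdet j (by omega)
      have hi := hind j (by omega)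
      rw [show j + 1 + 1 = j + 2 by ring]
      generalize x j = a at *
      generalize x (j + 1) = b at *
      generalize x (j + 2) = c at *
      unfold det3 cr0 cr1 cr2 at hd
      unfold cr0 cr1 cr2 at hi
      have k0 : (a 1 * b 2 - a 2 * b 1) * (w0 * c 0 + w1 * c 1 + w2 * c 2) = 0 := by
        linear_combination w0 * hd - (b 1 * c 2 - b 2 * c 1) * h1 - (c 1 * a 2 - c 2 * a 1) * h2
      have k1 : (a 2 * b 0 - a 0 * b 2) * (w0 * c 0 + w1 * c 1 + w2 * c 2) = 0 := by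
        linear_combination w1 * hd - (b 2 * c 0 - b 0 * c 2) * h1 - (c 2 * a 0 - c 0 * a 2) * h2
      have k2 : (a 0 * b 1 - a 1 * b 0) * (w0 * c 0 + w1 * c 1 + w2 * c 2) = 0 := by
        linear_combination w2 * hd - (b 0 * c 1 - b 1 * c 0) * h1 - (c 0 * a 1 - c 1 * a 0) * h2
      rcases hi with hi | hi | hi
      · exact (mul_eq_zero.mp k0).resolve_left hi
      · exact (mul_eq_zero.mp k1).resolve_left hi
      · exact (mul_eq_zero.mp k2).resolve_left hi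
  rcases Nat.eq_zero_or_pos n with rfl | hpos
  · exact z0
  · obtain ⟨j, rfl⟩ := Nat.exists_eq_add_of_le hpos
    have := (key j (by omega)).2
    rw [show 1 + j = j + 1 by ring]
    exact this

/-- lower bound for `|a + b e|` -/
theorem abs_add_mul_e (a b : ℤ) (hb : b ≠ 0) (M : ℝ) (hM : |(b:ℝ)| ≤ M) :
    1 / (200 * M * Real.log (M + 2)) ≤ |(a:ℝ) + b * Real.exp 1| := by
  have hb1 : (1:ℝ) ≤ |(b:ℝ)| := by exact_mod_cast Int.one_le_abs hb
  have h0 : 1 / (200 * |(b:ℝ)| * Real.log (|(b:ℝ)| + 2)) ≤ |(a:ℝ) + b * Real.exp 1| := by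
    rcases lt_or_gt_of_ne hb with h | h
    · have := measure_log (-b) (by omega) a
      have e1 : |(b:ℝ)| = ((-b : ℤ) : ℝ) := by
        push_cast
        exact abs_of_neg (by exact_mod_cast h)
      rw [e1]
      have e2 : |(a:ℝ) + b * Real.exp 1| = |((-b : ℤ):ℝ) * Real.exp 1 - a| := by
        rw [← abs_neg]
        congr 1
        push_cast
        ring
      rw [e2]
      exact this
    · have := measure_log b (by omega) (-a)
      have e1 : |(b:ℝ)| = (b : ℝ) := abs_of_pos (by exact_mod_cast h)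
      rw [e1]
      have e2 : |(a:ℝ) + b * Real.exp 1| = |(b:ℝ) * Real.exp 1 - ((-a : ℤ) : ℝ)| := by
        congr 1
        push_cast
        ring
      rw [e2]
      exact this
  refine le_trans ?_ h0
  have hl : 0 < Real.log (|(b:ℝ)| + 2) := Real.log_pos (by linarith)
  have hl2 : Real.log (|(b:ℝ)| + 2) ≤ Real.log (M + 2) :=
    Real.log_le_log (by linarith) (by linarith)
  apply one_div_le_one_div_of_le (by positivity)
  apply mul_le_mul _ hl2 hl.le (by linarith)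
  linarith

end Pool.Agent.H52.WG
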