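import Pool.Agent.H52.WG.Lin

/-!
# One small linear form gives weighted approximation on a range
-/

set_option autoImplicit false

open Real

namespace Pool.Agent.H52.WG

open H3EP

theorem PairOn.mono {y lam kap X Y X' Y' : ℝ} (h : PairOn y lam kap X Y) (hX : X ≤ X')
    (hY : Y' ≤ Y) : PairOn y lam kap X' Y' :=
  fun Q h1 h2 => h Q (hX.trans h1) (h2.trans hY)

theorem FormOn.mono {y lam kap X Y X' Y' : ℝ} (h : FormOn y lam kap X Y) (hX : X ≤ X')
    (hY : Y' ≤ Y) : FormOn y lam kap X' Y' :=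
  fun Q h1 h2 => h Q (hX.trans h1) (h2.trans hY)

theorem PairNear.mono {y X Y X' Y' : ℝ} (h : PairNear y X Y) (hX0 : 0 < X) (hX : X ≤ X')
    (hY : Y' ≤ Y) : PairNear y X' Y' := by
  intro Q h1 h2
  obtain ⟨q, a1, a2, a3, a4⟩ := h Q (hX.trans h1) (h2.trans hY)
  have hQ0 : 0 < Q := by linarith
  have e : X / Q ≤ X' / Q := div_le_div_of_nonneg_right hX hQ0.le
  exact ⟨q, a1, a2, a3.trans e, a4.trans e⟩

theorem OneForm.mono {y X Y X' Y' : ℝ} (h : OneForm y X Y) (hX : X ≤ X')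
    (hY : Y' ≤ Y) (hY0 : 0 < Y') : OneForm y X' Y' := by
  obtain ⟨v, h1, h2, h3⟩ := h
  exact ⟨v, h1, fun i => (h2 i).trans hX, h3.trans (one_div_le_one_div_of_le hY0 hY)⟩

private lemma le_pow_of (X C : ℝ) (hX : 1 ≤ X) (hC : 1 ≤ C) : X ≤ X ^ C := by
  calc X = X ^ (1:ℝ) := (Real.rpow_one X).symm
    _ ≤ X ^ C := Real.rpow_le_rpow_of_exponent_le hX hC

private lemma pow_le_of (Y C : ℝ) (hY : 1 ≤ Y) (hC : 1 ≤ C) : Y ^ (1 / C) ≤ Y := by
  calc Y ^ (1 / C) ≤ Y ^ (1:ℝ) :=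
        Real.rpow_le_rpow_of_exponent_le hY (by rw [div_le_one (by linarith)]; exact hC)
    _ = Y := Real.rpow_one Y

theorem form_of_form (y lam kap : ℝ) (hl0 : 0 < lam) (hl1 : lam < 1) (hk0 : 0 < kap)
    (hk1 : kap < 1) :
    ∃ C : ℝ, 1 ≤ C ∧ ∀ X Y : ℝ, C ≤ X → X ^ C ≤ Y → OneForm y X Y →
      FormOn y lam kap (X ^ C) (Y ^ (1 / C)) := by
  have a1 : 1 ≤ 1 / (1 - kap) := by rw [le_div_iff₀ (by linarith)]; linarith
  have a2 : 1 ≤ 1 / (1 - lam) := by rw [le_div_iff₀ (by linarith)]; linarith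
  obtain ⟨C, hC⟩ : ∃ C, C = 1 / (1 - kap) + 1 / (1 - lam) := ⟨_, rfl⟩
  have hC1 : 1 ≤ C := by linarith
  have hC0 : 0 < C := by linarith
  have hCk : 1 / C ≤ 1 - kap := by
    rw [div_le_iff₀ hC0]
    have : (1 - kap) * (1 / (1 - kap)) = 1 := mul_one_div_cancel (by linarith)
    nlinarith
  have hCl : 1 / C ≤ 1 - lam := by
    rw [div_le_iff₀ hC0]
    have : (1 - lam) * (1 / (1 - lam)) = 1 := mul_one_div_cancel (by linarith)
    nlinarith
  refine ⟨C, hC1, ?_⟩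
  intro X Y hCX hXY hB H hH1 hH2
  have hX1 : 1 ≤ X := by linarith
  have hX0 : 0 < X := by linarith
  have hXC : X ≤ X ^ C := le_pow_of X C hX1 hC1
  have hY1 : 1 ≤ Y := by linarith
  have hHX : X ≤ H := hXC.trans hH1
  have hH0 : 0 < H := by linarith
  have hH1' : 1 ≤ H := by linarith
  have hHY : H ≤ Y := hH2.trans (pow_le_of Y C hY1 hC1)
  have hXH : X ≤ H ^ (1 / C) := by
    have e1 : (X ^ C) ^ (1 / C) ≤ H ^ (1 / C) :=
      Real.rpow_le_rpow (by positivity) hH1 (by positivity)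
    rwa [← Real.rpow_mul hX0.le, mul_one_div_cancel hC0.ne', Real.rpow_one] at e1
  obtain ⟨v, h1, h2, h3⟩ := hB
  refine ⟨v, h1, ?_, ?_, ?_⟩
  · exact (h2 1).trans (hXH.trans (Real.rpow_le_rpow_of_exponent_le hH1' hCk))
  · exact (h2 2).trans (hXH.trans (Real.rpow_le_rpow_of_exponent_le hH1' hCl))
  · exact h3.trans (one_div_le_one_div_of_le hH0 hHY)

theorem near_of_form (y : ℝ) :
    ∃ C : ℝ, 1 ≤ C ∧ ∀ X Y : ℝ, C ≤ X → X ^ C ≤ Y → OneForm y X Y →
      PairNear y (X ^ C) (Y ^ (1 / C)) := by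
  obtain ⟨A0, hA0⟩ := log_lt_rpow 200 1 (by norm_num) (by norm_num)
  obtain ⟨C, hC⟩ : ∃ C, C = max A0 0 + 6 := ⟨_, rfl⟩
  have m0 := le_max_left A0 0
  have m1 := le_max_right A0 0
  have hC6 : 6 ≤ C := by linarith
  have hC1 : 1 ≤ C := by linarith
  have hC0 : 0 < C := by linarith
  have hCA : A0 ≤ C := by linarith
  refine ⟨C, hC1, ?_⟩
  intro X Y hCX hXY hB
  have hX6 : 6 ≤ X := by linarith
  have hX1 : 1 ≤ X := by linarith
  have hX0 : 0 < X := by linarith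
  have hXC : X ≤ X ^ C := le_pow_of X C hX1 hC1
  have hY6 : 6 ≤ Y := by linarith
  have hY0 : 0 < Y := by linarith
  have hX3 : X ^ 3 ≤ X ^ C := by
    rw [← Real.rpow_natCast]
    apply Real.rpow_le_rpow_of_exponent_le hX1
    push_cast
    linarith
  -- normalise the sign
  obtain ⟨a, b, c, hc0, hne, ha, hb, hc, hL⟩ : ∃ a b c : ℤ, 0 ≤ c ∧ (a ≠ 0 ∨ b ≠ 0 ∨ c ≠ 0) ∧
      |(a:ℝ)| ≤ X ∧ |(b:ℝ)| ≤ X ∧ |(c:ℝ)| ≤ X ∧ |(a:ℝ) + b * Real.exp 1 + c * y| ≤ 1 / Y := by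
    obtain ⟨v, h1, h2, h3⟩ := hB
    have hv : v 0 ≠ 0 ∨ v 1 ≠ 0 ∨ v 2 ≠ 0 := by
      by_contra hcon
      push Not at hcon
      apply h1
      ext i
      fin_cases i
      · exact hcon.1
      · exact hcon.2.1
      · exact hcon.2.2
    rcases le_total 0 (v 2) with h | h
    · exact ⟨v 0, v 1, v 2, h, hv, h2 0, h2 1, h2 2, h3⟩
    · refine ⟨-v 0, -v 1, -v 2, by omega, by omega, ?_, ?_, ?_, ?_⟩
      · push_cast; rw [abs_neg]; exact h2 0
      · push_cast; rw [abs_neg]; exact h2 1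
      · push_cast; rw [abs_neg]; exact h2 2
      · have e : (((-v 0 : ℤ)) : ℝ) + ((-v 1 : ℤ) : ℝ) * Real.exp 1 + ((-v 2 : ℤ) : ℝ) * y
            = -((v 0 : ℝ) + v 1 * Real.exp 1 + v 2 * y) := by
          push_cast; ring
        rw [e, abs_neg]
        exact h3
  have hYlt : 1 / Y < 1 := by rw [div_lt_one hY0]; linarith
  rcases hc0.eq_or_lt with hc' | hc'
  · -- `c = 0` is impossible
    exfalso
    rw [← hc'] at hL
    simp only [Int.cast_zero, zero_mul, add_zero] at hL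
    by_cases hb0 : b = 0
    · have ha0 : a ≠ 0 := by omega
      have e1 : (1:ℝ) ≤ |(a:ℝ)| := by exact_mod_cast Int.one_le_abs ha0
      rw [hb0] at hL
      simp only [Int.cast_zero, zero_mul, add_zero] at hL
      linarith
    · have e1 := (abs_add_mul_e a b hb0 X hb).trans hL
      have hl : 0 < Real.log (X + 2) := Real.log_pos (by linarith)
      have e2 : Y ≤ 200 * X * Real.log (X + 2) :=
        (one_div_le_one_div (by positivity) hY0).mp e1
      have e3 := hA0 X (by linarith)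
      rw [Real.rpow_one] at e3
      have e4 : X ^ (2:ℝ) ≤ X ^ C := Real.rpow_le_rpow_of_exponent_le hX1 (by linarith)
      rw [Real.rpow_two] at e4
      nlinarith
  · -- `c > 0`
    intro Q hQ1 hQ2
    have hXQ : X ≤ Q := hXC.trans hQ1
    have hQ0 : 0 < Q := by linarith
    have hQ1' : 1 ≤ Q := by linarith
    have hcr : (0:ℝ) < c := by exact_mod_cast hc'
    have hcr1 : (1:ℝ) ≤ c := by exact_mod_cast hc'
    rw [abs_of_pos hcr] at hc
    have hQc : 1 ≤ Q / c := by rw [le_div_iff₀ hcr]; linarith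
    obtain ⟨n, hn⟩ : ∃ n, n = ⌊Q / c⌋₊ := ⟨_, rfl⟩
    have hn1 : (n:ℝ) ≤ Q / c := by rw [hn]; exact Nat.floor_le (by linarith)
    have hn2 : Q / c < n + 1 := by rw [hn]; exact Nat.lt_floor_add_one _
    have hnpos : 0 < n := by
      rw [hn, Nat.floor_pos]; exact hQc
    obtain ⟨j, k, hk1', hk2, hjk⟩ := Real.exists_int_int_abs_mul_sub_le (Real.exp 1) hnpos
    have hkr : (1:ℝ) ≤ k := by exact_mod_cast hk1'
    have hk2' : (k:ℝ) ≤ n := by exact_mod_cast hk2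
    have hkQ : (k:ℝ) ≤ Q / c := hk2'.trans hn1
    have hd : |(k:ℝ) * Real.exp 1 - j| ≤ c / Q := by
      refine hjk.trans ?_
      rw [div_le_div_iff₀ (by positivity) hQ0]
      rw [div_lt_iff₀ hcr] at hn2
      linarith
    have hd0 := abs_nonneg ((k:ℝ) * Real.exp 1 - j)
    obtain ⟨q, hq⟩ : ∃ q : ℕ, (q : ℤ) = c * k := ⟨(c * k).toNat, Int.toNat_of_nonneg (by positivity)⟩
    have hqr : (q : ℝ) = c * k := by exact_mod_cast hq
    have hX2 : X ^ 2 ≤ X ^ 3 := by nlinarith [pow_pos hX0 2]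
    have hfin : X ^ 3 / Q ≤ X ^ C / Q := div_le_div_of_nonneg_right hX3 hQ0.le
    have hc2 : c * (c / Q) ≤ X ^ 2 / Q := by
      rw [← mul_div_assoc]
      apply div_le_div_of_nonneg_right _ hQ0.le
      nlinarith
    refine ⟨q, ?_, ?_, ?_, ?_⟩
    · have : (0:ℤ) < q := by rw [hq]; positivity
      omega
    · rw [hqr]
      have := mul_le_mul_of_nonneg_left hkQ hcr.le
      rwa [mul_div_cancel₀ _ hcr.ne'] at this
    · refine le_trans ?_ hfin
      unfold dist1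
      refine (round_le _ (c * j)).trans ?_
      have e : (q:ℝ) * Real.exp 1 - ((c * j : ℤ) : ℝ) = c * ((k:ℝ) * Real.exp 1 - j) := by
        rw [hqr]; push_cast; ring
      rw [e, abs_mul, abs_of_pos hcr]
      refine (mul_le_mul_of_nonneg_left hd hcr.le).trans (hc2.trans ?_)
      exact div_le_div_of_nonneg_right hX2 hQ0.le
    · refine le_trans ?_ hfin
      unfold dist1
      refine (round_le _ (-(a * k) - b * j)).trans ?_
      have e : (q:ℝ) * y - ((-(a * k) - b * j : ℤ) : ℝ) =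
          k * ((a:ℝ) + b * Real.exp 1 + c * y) - b * ((k:ℝ) * Real.exp 1 - j) := by
        rw [hqr]; push_cast; ring
      rw [e]
      refine (abs_sub _ _).trans ?_
      rw [abs_mul, abs_mul, abs_of_pos (by linarith : (0:ℝ) < k)]
      have e1 : (k:ℝ) * |(a:ℝ) + b * Real.exp 1 + c * y| ≤ Q * (1 / Y) := by
        apply mul_le_mul _ hL (abs_nonneg _) hQ0.le
        refine hkQ.trans ?_
        rw [div_le_iff₀ hcr]
        nlinarith
      have e2 : |(b:ℝ)| * |(k:ℝ) * Real.exp 1 - j| ≤ X * (c / Q) :=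
        mul_le_mul hb hd hd0 hX0.le
      have e3 : X * (c / Q) ≤ X ^ 2 / Q := by
        rw [← mul_div_assoc]
        apply div_le_div_of_nonneg_right _ hQ0.le
        nlinarith
      have e4 : Q * (1 / Y) ≤ 1 / Q := by
        have f1 : Q * Q ≤ Y := by
          have f2 : Q ^ (2:ℝ) ≤ (Y ^ (1 / C)) ^ (2:ℝ) :=
            Real.rpow_le_rpow hQ0.le hQ2 (by norm_num)
          rw [← Real.rpow_mul hY0.le] at f2
          have f3 : Y ^ (1 / C * 2) ≤ Y ^ (1:ℝ) := by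
            apply Real.rpow_le_rpow_of_exponent_le (by linarith)
            rw [show 1 / C * 2 = 2 / C by ring, div_le_one hC0]
            linarith
          rw [Real.rpow_two] at f2
          rw [Real.rpow_one] at f3
          nlinarith
        rw [mul_one_div, div_le_div_iff₀ hY0 hQ0]
        linarith
      have e5 : 1 / Q + X ^ 2 / Q ≤ X ^ 3 / Q := by
        rw [← add_div]
        apply div_le_div_of_nonneg_right _ hQ0.le
        nlinarith [pow_pos hX0 2]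
      linarith

theorem pair_of_near (y lam kap : ℝ) (hl0 : 0 < lam) (hl1 : lam < 1) (hk0 : 0 < kap)
    (hk1 : kap < 1) :
    ∃ C : ℝ, 1 ≤ C ∧ ∀ X Y : ℝ, C ≤ X → X ^ C ≤ Y → PairNear y X Y →
      PairOn y lam kap (X ^ C) (Y ^ (1 / C)) := by
  have a1 : 1 ≤ 1 / (1 - kap) := by rw [le_div_iff₀ (by linarith)]; linarith
  have a2 : 1 ≤ 1 / (1 - lam) := by rw [le_div_iff₀ (by linarith)]; linarith
  obtain ⟨C, hC⟩ : ∃ C, C = 1 / (1 - kap) + 1 / (1 - lam) := ⟨_, rfl⟩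
  have hC1 : 1 ≤ C := by linarith
  have hC0 : 0 < C := by linarith
  have hCk : 1 ≤ C * (1 - kap) := by
    have : (1 - kap) * (1 / (1 - kap)) = 1 := mul_one_div_cancel (by linarith)
    nlinarith
  have hCl : 1 ≤ C * (1 - lam) := by
    have : (1 - lam) * (1 / (1 - lam)) = 1 := mul_one_div_cancel (by linarith)
    nlinarith
  refine ⟨C, hC1, ?_⟩
  intro X Y hCX hXY hB Q hQ1 hQ2
  have hX1 : 1 ≤ X := by linarith
  have hX0 : 0 < X := by linarith
  have hXC : X ≤ X ^ C := le_pow_of X C hX1 hC1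
  have hY1 : 1 ≤ Y := by linarith
  have hQX : X ≤ Q := hXC.trans hQ1
  have hQ0 : 0 < Q := by linarith
  have hQY : Q ≤ Y := hQ2.trans (pow_le_of Y C hY1 hC1)
  have hpw : ∀ r : ℝ, r < 1 → 1 ≤ C * (1 - r) → X / Q ≤ Q ^ (-r) := by
    intro r hr1 hr
    have e1 : X ≤ Q ^ (1 - r) := by
      have f1 : (X ^ C) ^ (1 - r) ≤ Q ^ (1 - r) :=
        Real.rpow_le_rpow (by positivity) hQ1 (by linarith)
      rw [← Real.rpow_mul hX0.le] at f1
      exact (le_pow_of X _ hX1 hr).trans f1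
    have e2 : Q ^ (-r) = Q ^ (1 - r) / Q := by
      rw [show -r = (1 - r) - 1 by ring, Real.rpow_sub hQ0 (1 - r) 1, Real.rpow_one]
    rw [e2]
    exact div_le_div_of_nonneg_right e1 hQ0.le
  obtain ⟨q, h1, h2, h3, h4⟩ := hB Q hQX hQY
  exact ⟨q, h1, h2, h3.trans (hpw lam hl1 hCl), h4.trans (hpw kap hk1 hCk)⟩

end Pool.Agent.H52.WG
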