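import Mathlib

/-!
# Weighted uniform approximation to `(e, y)` and to `1, e, y` on a range of heights
-/

set_option autoImplicit false

namespace Pool.Agent.H52.WG

/-- The distance of a real number to the nearest integer. -/
noncomputable def dist1 (x : ℝ) : ℝ := |x - round x|

/-- Every `Q` in `[X, Y]` has an integer `1 ≤ q ≤ Q` such that `q e` is within `Q ^ (-lam)` and
`q y` within `Q ^ (-kap)` of an integer. -/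
def PairOn (y lam kap X Y : ℝ) : Prop :=
  ∀ Q : ℝ, X ≤ Q → Q ≤ Y → ∃ q : ℕ, 1 ≤ q ∧ (q : ℝ) ≤ Q ∧
    dist1 (q * Real.exp 1) ≤ Q ^ (-lam) ∧ dist1 (q * y) ≤ Q ^ (-kap)

/-- Every `Q` in `[X, Y]` has an integer `1 ≤ q ≤ Q` such that `q e` and `q y` are within `X / Q` of
an integer. -/
def PairNear (y X Y : ℝ) : Prop :=
  ∀ Q : ℝ, X ≤ Q → Q ≤ Y → ∃ q : ℕ, 1 ≤ q ∧ (q : ℝ) ≤ Q ∧
    dist1 (q * Real.exp 1) ≤ X / Q ∧ dist1 (q * y) ≤ X / Q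

/-- Every `H` in `[X, Y]` has an integer vector `v ≠ 0` with `|v 1| ≤ H ^ (1 - kap)`,
`|v 2| ≤ H ^ (1 - lam)` and `|v 0 + v 1 e + v 2 y| ≤ 1 / H`. -/
def FormOn (y lam kap X Y : ℝ) : Prop :=
  ∀ H : ℝ, X ≤ H → H ≤ Y → ∃ v : Fin 3 → ℤ, v ≠ 0 ∧ |(v 1 : ℝ)| ≤ H ^ (1 - kap) ∧
    |(v 2 : ℝ)| ≤ H ^ (1 - lam) ∧ |v 0 + v 1 * Real.exp 1 + v 2 * y| ≤ 1 / H

/-- Some integer vector `v ≠ 0` with entries at most `X` in absolute value has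
`|v 0 + v 1 e + v 2 y| ≤ 1 / Y`. -/
def OneForm (y X Y : ℝ) : Prop :=
  ∃ v : Fin 3 → ℤ, v ≠ 0 ∧ (∀ i, |(v i : ℝ)| ≤ X) ∧
    |v 0 + v 1 * Real.exp 1 + v 2 * y| ≤ 1 / Y

end Pool.Agent.H52.WG
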