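import Pool.Agent.H52.WG.Sim

/-!
# Small weighted linear forms on a range force one small linear form
-/

set_option autoImplicit false

open Real

namespace Pool.Agent.H52.WG

open H3EP

/-- Two independent small forms: the second height is at most the `T`-th power of the first. -/
theorem ratio_lin (y β γ T : ℝ) (hβ0 : 0 < β) (hβ1 : β < 1) (hγ0 : 0 < γ) (_hγ1 : γ < 1)
    (hT : 1 < T) (h1 : β < T * (1 - 2 * γ)) (h2 : γ < T * (1 - β - γ)) :
    ∃ S : ℝ, 1 ≤ S ∧ ∀ s : ℝ, S ≤ s → ∀ t : ℝ, s ≤ t → ∀ a b : Fin 3 → ℤ,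
      (cr0 a b ≠ 0 ∨ cr1 a b ≠ 0 ∨ cr2 a b ≠ 0) → |(a 1 : ℝ)| ≤ s ^ β → |(a 2 : ℝ)| ≤ s ^ γ →
      |(b 1 : ℝ)| ≤ t ^ β → |(b 2 : ℝ)| ≤ t ^ γ → |Lf y a| ≤ 1 / t → |Lf y b| ≤ 1 / t →
      t ≤ s ^ T := by
  have hT0 : 0 < T := by linarith
  obtain ⟨ε, hε⟩ : ∃ ε, ε = min ((1 - 2 * γ) - β / T) ((1 - β - γ) - γ / T) / 2 := ⟨_, rfl⟩
  have k1 : β / T < 1 - 2 * γ := by rw [div_lt_iff₀ hT0]; linarith
  have k2 : γ / T < 1 - β - γ := by rw [div_lt_iff₀ hT0]; linarith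
  have hε0 : 0 < ε := by
    rw [hε]
    exact half_pos (lt_min (by linarith) (by linarith))
  have hεa : 2 * ε ≤ (1 - 2 * γ) - β / T := by
    rw [hε]; linarith [min_le_left ((1 - 2 * γ) - β / T) ((1 - β - γ) - γ / T)]
  have hεb : 2 * ε ≤ (1 - β - γ) - γ / T := by
    rw [hε]; linarith [min_le_right ((1 - 2 * γ) - β / T) ((1 - β - γ) - γ / T)]
  have hβT : 0 < β / T := div_pos hβ0 hT0
  have hε1 : ε ≤ 1 := by linarith
  obtain ⟨A0, hA0⟩ := log_lt_rpow 1600 ε (by norm_num) hε0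
  obtain ⟨A1, hA1⟩ := log_lt_rpow 200 (1 - β) (by norm_num) (by linarith)
  obtain ⟨S, hS⟩ : ∃ S, S = max (max 2 A0) (max A1 (3 ^ (1 / (1 - γ)))) := ⟨_, rfl⟩
  have S2 : 2 ≤ S := by rw [hS]; exact (le_max_left _ _).trans (le_max_left _ _)
  have SA0 : A0 ≤ S := by rw [hS]; exact (le_max_right _ _).trans (le_max_left _ _)
  have SA1 : A1 ≤ S := by rw [hS]; exact (le_max_left _ _).trans (le_max_right _ _)
  have S3 : 3 ^ (1 / (1 - γ)) ≤ S := by rw [hS]; exact (le_max_right _ _).trans (le_max_right _ _)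
  refine ⟨S, by linarith, ?_⟩
  intro s hs t hst a b hab ha1 ha2 hb1 hb2 hLa hLb
  by_contra hcon
  push Not at hcon
  have hs0 : 0 < s := by linarith
  have hs1 : 1 ≤ s := by linarith
  have ht0 : 0 < t := by linarith
  have ht1 : 1 < t := by linarith
  have hsT : s ≤ t ^ (1 / T) := by
    have e1 : (s ^ T) ^ (1 / T) ≤ t ^ (1 / T) :=
      Real.rpow_le_rpow (by positivity) hcon.le (by positivity)
    rwa [← Real.rpow_mul hs0.le, mul_one_div_cancel hT0.ne', Real.rpow_one] at e1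
  have hpow : ∀ r : ℝ, 0 ≤ r → s ^ r ≤ t ^ (r / T) := by
    intro r hr
    have e1 : s ^ r ≤ (t ^ (1 / T)) ^ r := Real.rpow_le_rpow hs0.le hsT hr
    rwa [← Real.rpow_mul ht0.le, show 1 / T * r = r / T by ring] at e1
  obtain ⟨M, hM⟩ : ∃ M, M = t ^ γ * s ^ β + s ^ γ * t ^ β := ⟨_, rfl⟩
  have hM0 : 0 < M := by rw [hM]; positivity
  have hMt : M * t ^ (γ - 1) ≤ 2 * t ^ (-(2 * ε)) := by
    have e1 : t ^ γ * s ^ β * t ^ (γ - 1) ≤ t ^ (-(2 * ε)) := by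
      calc t ^ γ * s ^ β * t ^ (γ - 1) ≤ t ^ γ * t ^ (β / T) * t ^ (γ - 1) := by
            have := hpow β hβ0.le
            gcongr
        _ = t ^ (γ + β / T + (γ - 1)) := by rw [Real.rpow_add ht0, Real.rpow_add ht0]
        _ ≤ t ^ (-(2 * ε)) := Real.rpow_le_rpow_of_exponent_le ht1.le (by linarith)
    have e2 : s ^ γ * t ^ β * t ^ (γ - 1) ≤ t ^ (-(2 * ε)) := by
      calc s ^ γ * t ^ β * t ^ (γ - 1) ≤ t ^ (γ / T) * t ^ β * t ^ (γ - 1) := by
            have := hpow γ hγ0.le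
            gcongr
        _ = t ^ (γ / T + β + (γ - 1)) := by rw [Real.rpow_add ht0, Real.rpow_add ht0]
        _ ≤ t ^ (-(2 * ε)) := Real.rpow_le_rpow_of_exponent_le ht1.le (by linarith)
    rw [hM, add_mul]
    linarith
  have hM2 : M ≤ 2 * t := by
    have e1 : t ^ (γ - 1) * t ^ (1 - γ) = 1 := by
      rw [← Real.rpow_add ht0, show γ - 1 + (1 - γ) = 0 by ring, Real.rpow_zero]
    have e2 : M * t ^ (γ - 1) * t ^ (1 - γ) ≤ 2 * t ^ (-(2 * ε)) * t ^ (1 - γ) :=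
      mul_le_mul_of_nonneg_right hMt (by positivity)
    rw [mul_assoc, e1, mul_one, mul_assoc, ← Real.rpow_add ht0] at e2
    have e3 : t ^ (-(2 * ε) + (1 - γ)) ≤ t ^ (1:ℝ) :=
      Real.rpow_le_rpow_of_exponent_le ht1.le (by linarith)
    rw [Real.rpow_one] at e3
    linarith
  have hlog : Real.log (M + 2) ≤ t ^ ε / 800 := by
    have e1 := hA0 (2 * t) (by linarith)
    have e2 : (2 * t) ^ ε ≤ 2 * t ^ ε := by
      rw [Real.mul_rpow (by norm_num) ht0.le]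
      apply mul_le_mul_of_nonneg_right _ (by positivity)
      calc (2:ℝ) ^ ε ≤ 2 ^ (1:ℝ) := Real.rpow_le_rpow_of_exponent_le (by norm_num) hε1
        _ = 2 := Real.rpow_one 2
    have e3 : Real.log (M + 2) ≤ Real.log (2 * t + 2) := Real.log_le_log (by linarith) (by linarith)
    linarith
  -- eliminate the third coordinate
  obtain ⟨ua, hua⟩ : ∃ ua, ua = b 2 * a 0 - a 2 * b 0 := ⟨_, rfl⟩
  obtain ⟨ub, hub⟩ : ∃ ub, ub = b 2 * a 1 - a 2 * b 1 := ⟨_, rfl⟩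
  have hu : (ua : ℝ) + ub * Real.exp 1 = b 2 * Lf y a - a 2 * Lf y b := by
    rw [hua, hub]
    unfold Lf
    push_cast
    ring
  have hts : s ^ γ ≤ t ^ γ := Real.rpow_le_rpow hs0.le hst hγ0.le
  have hu2 : |(ua : ℝ) + ub * Real.exp 1| ≤ 2 * t ^ (γ - 1) := by
    rw [hu]
    refine (abs_sub _ _).trans ?_
    rw [abs_mul, abs_mul]
    have e1 : |(b 2 : ℝ)| * |Lf y a| ≤ t ^ γ * (1 / t) :=
      mul_le_mul hb2 hLa (abs_nonneg _) (by positivity)
    have e2 : |(a 2 : ℝ)| * |Lf y b| ≤ t ^ γ * (1 / t) :=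
      mul_le_mul (ha2.trans hts) hLb (abs_nonneg _) (by positivity)
    have e3 : t ^ (γ - 1) = t ^ γ * (1 / t) := by
      rw [Real.rpow_sub ht0, Real.rpow_one]; ring
    rw [e3]
    linarith
  by_cases hub0 : ub = 0
  · -- `ub = 0`
    have h3 : 3 ≤ t ^ (1 - γ) := by
      have e1 : (3 ^ (1 / (1 - γ))) ^ (1 - γ) ≤ t ^ (1 - γ) :=
        Real.rpow_le_rpow (by positivity) (by linarith) (by linarith)
      rwa [← Real.rpow_mul (by norm_num), one_div_mul_cancel (by linarith), Real.rpow_one] at e1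
    have hua0 : ua = 0 := by
      by_contra hne
      have e1 : (1:ℝ) ≤ |(ua:ℝ)| := by exact_mod_cast Int.one_le_abs hne
      rw [hub0] at hu2
      simp only [Int.cast_zero, zero_mul, add_zero] at hu2
      have e2 : t ^ (γ - 1) * t ^ (1 - γ) = 1 := by
        rw [← Real.rpow_add ht0, show γ - 1 + (1 - γ) = 0 by ring, Real.rpow_zero]
      have e3 : 0 < t ^ (γ - 1) := by positivity
      nlinarith
    rw [hua] at hua0
    rw [hub] at hub0
    have hab2 : cr2 a b ≠ 0 := by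
      rcases hab with h | h | h
      · exfalso; apply h; unfold cr0; linarith
      · exfalso; apply h; unfold cr1; linarith
      · exact h
    unfold cr2 at hab2
    have ha20 : a 2 = 0 := by
      have : a 2 * (a 0 * b 1 - a 1 * b 0) = 0 := by
        linear_combination (-a 0) * hub0 + a 1 * hua0
      exact (mul_eq_zero.mp this).resolve_right hab2
    have hLa' : Lf y a = (a 0 : ℝ) + a 1 * Real.exp 1 := by
      unfold Lf
      rw [ha20]
      push_cast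
      ring
    by_cases ha10 : a 1 = 0
    · have ha00 : a 0 ≠ 0 := by
        intro h0
        apply hab2
        rw [ha10, h0]
        ring
      have e1 : (1:ℝ) ≤ |(a 0:ℝ)| := by exact_mod_cast Int.one_le_abs ha00
      rw [hLa', ha10] at hLa
      simp only [Int.cast_zero, zero_mul, add_zero] at hLa
      have e2 : 1 / t < 1 := by rw [div_lt_one ht0]; exact ht1
      linarith
    · have e1 := abs_add_mul_e (a 0) (a 1) ha10 (s ^ β) ha1
      rw [← hLa'] at e1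
      have hsb : 0 < s ^ β := by positivity
      have hl : 0 < Real.log (s ^ β + 2) := Real.log_pos (by linarith)
      have e2 : t ≤ 200 * s ^ β * Real.log (s ^ β + 2) :=
        (one_div_le_one_div (by positivity) ht0).mp (e1.trans hLa)
      have e3 : s ^ β ≤ s := by
        calc s ^ β ≤ s ^ (1:ℝ) := Real.rpow_le_rpow_of_exponent_le hs1 hβ1.le
          _ = s := Real.rpow_one s
      have e4 : Real.log (s ^ β + 2) ≤ Real.log (s + 2) :=
        Real.log_le_log (by linarith) (by linarith)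
      have e5 := hA1 s (by linarith)
      have e6 : s ^ β * s ^ (1 - β) = s := by
        rw [← Real.rpow_add hs0, show β + (1 - β) = 1 by ring, Real.rpow_one]
      have e7 : s ^ β * (200 * Real.log (s ^ β + 2)) < s ^ β * s ^ (1 - β) :=
        mul_lt_mul_of_pos_left (by linarith) hsb
      rw [e6] at e7
      linarith
  · -- `ub ≠ 0`
    have hubM : |(ub : ℝ)| ≤ M := by
      rw [hub, hM]
      push_cast
      refine (abs_sub _ _).trans ?_
      rw [abs_mul, abs_mul]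
      have e1 : |(b 2 : ℝ)| * |(a 1 : ℝ)| ≤ t ^ γ * s ^ β :=
        mul_le_mul hb2 ha1 (abs_nonneg _) (by positivity)
      have e2 : |(a 2 : ℝ)| * |(b 1 : ℝ)| ≤ s ^ γ * t ^ β :=
        mul_le_mul ha2 hb1 (abs_nonneg _) (by positivity)
      linarith
    have e1 := (abs_add_mul_e ua ub hub0 M hubM).trans hu2
    have hl : 0 < Real.log (M + 2) := Real.log_pos (by linarith)
    rw [div_le_iff₀ (by positivity)] at e1
    have e2 : 2 * t ^ (γ - 1) * (200 * M * Real.log (M + 2))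
        = 400 * (M * t ^ (γ - 1)) * Real.log (M + 2) := by ring
    rw [e2] at e1
    have e3 : 400 * (M * t ^ (γ - 1)) * Real.log (M + 2) ≤
        400 * (2 * t ^ (-(2 * ε))) * (t ^ ε / 800) := by
      apply mul_le_mul _ hlog hl.le (by positivity)
      linarith
    have e4 : 400 * (2 * t ^ (-(2 * ε))) * (t ^ ε / 800) = t ^ (-ε) := by
      have : t ^ (-(2 * ε)) * t ^ ε = t ^ (-ε) := by
        rw [← Real.rpow_add ht0]; congr 1; ring
      rw [← this]; ring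
    have e5 : t ^ (-ε) < 1 := Real.rpow_lt_one_of_one_lt_of_neg ht1 (by linarith)
    linarith

private lemma lf_parallel (y : ℝ) (a b : Fin 3 → ℤ)
    (h : ¬ (cr0 a b ≠ 0 ∨ cr1 a b ≠ 0 ∨ cr2 a b ≠ 0)) (i : Fin 3) :
    (b i : ℝ) * Lf y a = a i * Lf y b := by
  push Not at h
  obtain ⟨h0, h1, h2⟩ := h
  unfold cr0 at h0
  unfold cr1 at h1
  unfold cr2 at h2
  have h0' : (a 1 : ℝ) * b 2 - a 2 * b 1 = 0 := by exact_mod_cast h0
  have h1' : (a 2 : ℝ) * b 0 - a 0 * b 2 = 0 := by exact_mod_cast h1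
  have h2' : (a 0 : ℝ) * b 1 - a 1 * b 0 = 0 := by exact_mod_cast h2
  unfold Lf
  fin_cases i
  · change (b 0 : ℝ) * _ = a 0 * _
    linear_combination (-Real.exp 1) * h2' + y * h1'
  · change (b 1 : ℝ) * _ = a 1 * _
    linear_combination h2' - y * h0'
  · change (b 2 : ℝ) * _ = a 2 * _
    linear_combination (-1) * h1' + Real.exp 1 * h0'

/-- the heights of a small form -/
private lemma ent_le (y : ℝ) (v : Fin 3 → ℤ) (N : ℝ) (hN : 1 ≤ N) (hL : |Lf y v| ≤ 1)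
    (h1 : |(v 1 : ℝ)| ≤ N) (h2 : |(v 2 : ℝ)| ≤ N) (i : Fin 3) :
    |(v i : ℝ)| ≤ (|y| + 4) * N := by
  have hy := abs_nonneg y
  have he := Real.exp_one_lt_d9
  have he0 : 0 < Real.exp 1 := Real.exp_pos 1
  have hb : N ≤ (|y| + 4) * N := by nlinarith
  fin_cases i
  · change |(v 0 : ℝ)| ≤ _
    have e : (v 0 : ℝ) = Lf y v - v 1 * Real.exp 1 - v 2 * y := by unfold Lf; ring
    rw [e]
    refine (abs_sub _ _).trans ?_
    have e1 := abs_sub (Lf y v) (v 1 * Real.exp 1)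
    rw [abs_mul, abs_of_pos he0] at e1
    rw [abs_mul]
    have e2 : |(v 1 : ℝ)| * Real.exp 1 ≤ N * Real.exp 1 := mul_le_mul_of_nonneg_right h1 he0.le
    have e3 : |(v 2 : ℝ)| * |y| ≤ N * |y| := mul_le_mul_of_nonneg_right h2 hy
    nlinarith
  · exact h1.trans hb
  · exact h2.trans hb

/-- If `w` is orthogonal to two independent small forms, then `w` is close to the line of
`(1, e, y)`. -/
private lemma perp_le (y : ℝ) (w a b : Fin 3 → ℤ) (W : ℝ) (hW : ∀ i, |(w i : ℝ)| ≤ W)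
    (hab : cr0 a b ≠ 0 ∨ cr1 a b ≠ 0 ∨ cr2 a b ≠ 0)
    (ha : w 0 * a 0 + w 1 * a 1 + w 2 * a 2 = 0) (hb : w 0 * b 0 + w 1 * b 1 + w 2 * b 2 = 0)
    (D : ℝ) (h1 : |(b 1 : ℝ) * Lf y a - a 1 * Lf y b| ≤ D)
    (h2 : |(b 2 : ℝ) * Lf y a - a 2 * Lf y b| ≤ D) :
    |(w 2 : ℝ) - w 0 * y| ≤ W * D ∧ |(w 0 : ℝ) * Real.exp 1 - w 1| ≤ W * D := by
  have q1 : (w 0 : ℝ) * a 0 + w 1 * a 1 + w 2 * a 2 = 0 := by exact_mod_cast ha
  have q2 : (w 0 : ℝ) * b 0 + w 1 * b 1 + w 2 * b 2 = 0 := by exact_mod_cast hb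
  have hW0 : 0 ≤ W := (abs_nonneg _).trans (hW 0)
  have hD0 : 0 ≤ D := (abs_nonneg _).trans h1
  have fin : ∀ (cj wj : ℤ), cj ≠ 0 → |(wj:ℝ)| ≤ W →
      (cj : ℝ) * ((w 2 : ℝ) - w 0 * y) = wj * ((b 1 : ℝ) * Lf y a - a 1 * Lf y b) →
      (cj : ℝ) * ((w 0 : ℝ) * Real.exp 1 - w 1) = wj * ((b 2 : ℝ) * Lf y a - a 2 * Lf y b) →
      |(w 2 : ℝ) - w 0 * y| ≤ W * D ∧ |(w 0 : ℝ) * Real.exp 1 - w 1| ≤ W * D := by
    intro cj wj hcj hwj e1 e2
    have hcj' : (1:ℝ) ≤ |(cj:ℝ)| := by exact_mod_cast Int.one_le_abs hcj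
    constructor
    · have f1 := congrArg abs e1
      rw [abs_mul, abs_mul] at f1
      have f2 : |(wj:ℝ)| * |(b 1 : ℝ) * Lf y a - a 1 * Lf y b| ≤ W * D :=
        mul_le_mul hwj h1 (abs_nonneg _) hW0
      have f3 := abs_nonneg ((w 2 : ℝ) - w 0 * y)
      nlinarith
    · have f1 := congrArg abs e2
      rw [abs_mul, abs_mul] at f1
      have f2 : |(wj:ℝ)| * |(b 2 : ℝ) * Lf y a - a 2 * Lf y b| ≤ W * D :=
        mul_le_mul hwj h2 (abs_nonneg _) hW0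
      have f3 := abs_nonneg ((w 0 : ℝ) * Real.exp 1 - w 1)
      nlinarith
  rcases hab with h | h | h
  · apply fin _ (w 0) h (hW 0)
    · unfold cr0 Lf; push_cast
      linear_combination (a 1 : ℝ) * q2 - (b 1 : ℝ) * q1
    · unfold cr0 Lf; push_cast
      linear_combination (a 2 : ℝ) * q2 - (b 2 : ℝ) * q1
  · apply fin _ (w 1) h (hW 1)
    · unfold cr1 Lf; push_cast
      linear_combination (-(a 0 : ℝ) - y * a 2) * q2 + ((b 0 : ℝ) + y * b 2) * q1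
    · unfold cr1 Lf; push_cast
      linear_combination (Real.exp 1 * a 2) * q2 - (Real.exp 1 * b 2) * q1
  · apply fin _ (w 2) h (hW 2)
    · unfold cr2 Lf; push_cast
      linear_combination (y * a 1) * q2 - (y * b 1) * q1
    · unfold cr2 Lf; push_cast
      linear_combination (-(Real.exp 1 * a 1) - a 0) * q2 + (Real.exp 1 * b 1 + b 0) * q1

/-- lower bound for the distance of an integer vector to the line of `(1, e, y)` -/
private lemma line_ge (y : ℝ) (w : Fin 3 → ℤ) (W D : ℝ) (hW : ∀ i, |(w i : ℝ)| ≤ W)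
    (hW1 : 1 ≤ W) (hw : w 0 ≠ 0 ∨ w 1 ≠ 0 ∨ w 2 ≠ 0)
    (h1 : |(w 2 : ℝ) - w 0 * y| ≤ W * D) (h2 : |(w 0 : ℝ) * Real.exp 1 - w 1| ≤ W * D) :
    1 ≤ 600 * W ^ 3 * D := by
  have hWD : 0 ≤ W * D := (abs_nonneg _).trans h1
  have hD0 : 0 ≤ D := by
    by_contra hcon
    push Not at hcon
    nlinarith
  have hfin : 1 ≤ W * D → 1 ≤ 600 * W ^ 3 * D := by
    intro h
    have e1 : W * D ≤ W ^ 3 * D := by
      apply mul_le_mul_of_nonneg_right _ hD0
      have : W ^ 3 = W * W ^ 2 := by ring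
      nlinarith [one_le_pow₀ hW1 (n := 2)]
    nlinarith
  by_cases hw0 : w 0 = 0
  · rw [hw0] at h1 h2
    simp only [Int.cast_zero, zero_mul, zero_sub, sub_zero, abs_neg] at h1 h2
    apply hfin
    rcases hw with h | h | h
    · exact absurd hw0 h
    · have : (1:ℝ) ≤ |(w 1:ℝ)| := by exact_mod_cast Int.one_le_abs h
      linarith
    · have : (1:ℝ) ≤ |(w 2:ℝ)| := by exact_mod_cast Int.one_le_abs h
      linarith
  · have e1 := abs_add_mul_e (-(w 1)) (w 0) hw0 W (hW 0)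
    have e2 : ((-(w 1) : ℤ) : ℝ) + w 0 * Real.exp 1 = (w 0 : ℝ) * Real.exp 1 - w 1 := by
      push_cast; ring
    rw [e2] at e1
    have e3 := e1.trans h2
    have hl : 0 < Real.log (W + 2) := Real.log_pos (by linarith)
    rw [div_le_iff₀ (by positivity)] at e3
    have hl2 : Real.log (W + 2) ≤ 3 * W := by
      have := Real.log_le_sub_one_of_pos (by linarith : 0 < W + 2)
      linarith
    have e4 : W * D * (200 * W * Real.log (W + 2)) ≤ W * D * (200 * W * (3 * W)) := by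
      apply mul_le_mul_of_nonneg_left _ hWD
      apply mul_le_mul_of_nonneg_left hl2 (by positivity)
    have e5 : W * D * (200 * W * (3 * W)) = 600 * W ^ 3 * D := by ring
    linarith

theorem lin_local (y lam kap : ℝ) (hl0 : 0 < lam) (hl1 : lam < 1) (hk0 : 0 < kap) (hk1 : kap < 1)
    (h1 : 1 - lam < lam * kap) (h2 : 1 - kap < lam ^ 2) :
    ∃ C : ℝ, 1 ≤ C ∧ ∀ X Y : ℝ, C ≤ X → X ≤ Y → FormOn y lam kap X Y →
      OneForm y (X ^ C) Y := by
  obtain ⟨T, hT1, hTl, hTa, hTb⟩ := exists_T lam kap hl0 hl1 hk1 h1 h2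
  obtain ⟨β, hβ⟩ : ∃ β, β = 1 - kap := ⟨_, rfl⟩
  obtain ⟨γ, hγ⟩ : ∃ γ, γ = 1 - lam := ⟨_, rfl⟩
  have hβ0 : 0 < β := by linarith
  have hβ1 : β < 1 := by linarith
  have hγ0 : 0 < γ := by linarith
  have hγ1 : γ < 1 := by linarith
  have hl2 : 0 < 2 * lam - 1 := by nlinarith
  have hlk : 0 < lam + kap - 1 := by nlinarith
  obtain ⟨S1, hS1, hratio⟩ := ratio_lin y β γ T hβ0 hβ1 hγ0 hγ1 hT1
    (by
      rw [hβ, hγ]
      have e1 : lam * (1 - kap) < 2 * lam - 1 := by linarith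
      have e2 : T * lam * (1 - kap) < T * (2 * lam - 1) := by nlinarith
      have e3 : 1 - kap ≤ T * lam * (1 - kap) := by nlinarith
      have e4 : T * (1 - 2 * (1 - lam)) = T * (2 * lam - 1) := by ring
      rw [e4]
      linarith)
    (by
      rw [hβ, hγ]
      have e1 : lam * (1 - lam) < lam + kap - 1 := by nlinarith
      have e2 : T * lam * (1 - lam) < T * (lam + kap - 1) := by nlinarith
      have e3 : 1 - lam ≤ T * lam * (1 - lam) := by nlinarith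
      have e4 : T * (1 - (1 - kap) - (1 - lam)) = T * (lam + kap - 1) := by ring
      rw [e4]
      linarith)
  obtain ⟨ε, hε⟩ : ∃ ε, ε = min (lam - T * (1 - kap)) (kap - T * (1 - lam)) := ⟨_, rfl⟩
  have hε0 : 0 < ε := by rw [hε]; exact lt_min (by linarith) (by linarith)
  have hεa : ε ≤ lam - T * (1 - kap) := by rw [hε]; exact min_le_left _ _
  have hεb : ε ≤ kap - T * (1 - lam) := by rw [hε]; exact min_le_right _ _
  obtain ⟨μ, hμ⟩ : ∃ μ, μ = min lam kap := ⟨_, rfl⟩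
  have hμ0 : 0 < μ := by rw [hμ]; exact lt_min hl0 hk0
  have hμa : μ ≤ lam := by rw [hμ]; exact min_le_left _ _
  have hμb : μ ≤ kap := by rw [hμ]; exact min_le_right _ _
  obtain ⟨M, hM⟩ : ∃ M, M = |y| + 4 := ⟨_, rfl⟩
  have hM4 : 4 ≤ M := by rw [hM]; linarith [abs_nonneg y]
  obtain ⟨C, hC⟩ : ∃ C, C = S1 + 7 ^ (1 / ε) + 4 * M ^ 2 + (7 + 3 * T) / μ + 1200 := ⟨_, rfl⟩
  have p1 : (0:ℝ) < 7 ^ (1 / ε) := by positivity
  have p2 : 0 ≤ 4 * M ^ 2 := by positivity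
  have p3 : 0 < (7 + 3 * T) / μ := div_pos (by linarith) hμ0
  have hCS : S1 ≤ C := by linarith
  have hC7 : 7 ^ (1 / ε) ≤ C := by linarith
  have hCM : 4 * M ^ 2 ≤ C := by linarith
  have hCμ : (7 + 3 * T) / μ + 1 ≤ C := by linarith
  have hC12 : 1200 ≤ C := by linarith
  have hC1 : 1 ≤ C := by linarith
  have hC0 : 0 < C := by linarith
  refine ⟨C, hC1, ?_⟩
  intro X Y hCX hXY hcov
  have hX1 : 1 < X := by linarith
  have hX0 : 0 < X := by linarith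
  have hY0 : 0 < Y := by linarith
  have hMX : M ≤ X := by nlinarith
  obtain ⟨h, hh⟩ : ∃ h : (Fin 3 → ℤ) → ℝ, ∀ v, h v = max (|(v 1 : ℝ)| ^ β⁻¹) (|(v 2 : ℝ)| ^ γ⁻¹) :=
    ⟨_, fun _ => rfl⟩
  have hh0 : ∀ v, 0 ≤ h v := fun v => by
    rw [hh]; exact le_max_of_le_left (Real.rpow_nonneg (abs_nonneg _) _)
  have hhiff : ∀ (v : Fin 3 → ℤ) (t : ℝ), 0 ≤ t →
      (h v ≤ t ↔ |(v 1 : ℝ)| ≤ t ^ β ∧ |(v 2 : ℝ)| ≤ t ^ γ) := by
    intro v t ht
    rw [hh, max_le_iff, Real.rpow_inv_le_iff_of_pos (abs_nonneg _) ht hβ0,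
      Real.rpow_inv_le_iff_of_pos (abs_nonneg _) ht hγ0]
  have hent : ∀ (v : Fin 3 → ℤ) (N : ℝ), 1 ≤ N → |Lf y v| ≤ 1 → h v ≤ N →
      ∀ i, |(v i : ℝ)| ≤ M * N := by
    intro v N hN hL hv
    obtain ⟨a1, a2⟩ := (hhiff v N (by linarith)).mp hv
    rw [hM]
    apply ent_le y v N hN hL
    · refine a1.trans ?_
      calc N ^ β ≤ N ^ (1:ℝ) := Real.rpow_le_rpow_of_exponent_le hN hβ1.le
        _ = N := Real.rpow_one N
    · refine a2.trans ?_
      calc N ^ γ ≤ N ^ (1:ℝ) := Real.rpow_le_rpow_of_exponent_le hN hγ1.le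
        _ = N := Real.rpow_one N
  obtain ⟨k, x, hx0, -, hx, hxk⟩ := cover_chain (V := {v : Fin 3 → ℤ // v ≠ 0 ∧ |Lf y v| ≤ 1})
    (fun v => h v.1) (fun v => |Lf y v.1|)
    (by
      intro N
      have hf := finite_hgt ⌊M * max N 1⌋₊
      refine (hf.preimage (f := (Subtype.val : {v : Fin 3 → ℤ // v ≠ 0 ∧ |Lf y v| ≤ 1} → _))
        Subtype.val_injective.injOn).subset ?_
      intro v hv
      have hv' : h v.1 ≤ max N 1 := le_trans hv (le_max_left _ _)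
      have h3 := hent v.1 (max N 1) (le_max_right _ _) v.2.2 hv'
      exact Nat.le_floor ((hgt_le_iff _ _).mpr h3))
    X Y hX0 hXY
    (by
      intro Q hQ1 hQ2
      obtain ⟨v, hv1, hv2, hv3, hv4⟩ := hcov Q hQ1 hQ2
      have hQ0 : 0 < Q := by linarith
      have hL : |Lf y v| ≤ 1 / Q := hv4
      have hL1 : |Lf y v| ≤ 1 := by
        refine hL.trans ?_
        rw [div_le_one hQ0]
        linarith
      refine ⟨⟨v, hv1, hL1⟩, (hhiff v Q hQ0.le).mpr ⟨?_, ?_⟩, hL⟩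
      · rw [hβ]; exact hv2
      · rw [hγ]; exact hv3)
  obtain ⟨v, hv⟩ : ∃ v : ℕ → Fin 3 → ℤ, ∀ n, v n = (x n).1 := ⟨_, fun _ => rfl⟩
  have hvne : ∀ n, v n ≠ 0 := fun n => by rw [hv]; exact (x n).2.1
  have hvL : ∀ n, |Lf y (v n)| ≤ 1 := fun n => by rw [hv]; exact (x n).2.2
  have hx' : ∀ n < k, X < h (v (n + 1)) ∧ h (v n) < h (v (n + 1)) ∧
      |Lf y (v (n + 1))| < |Lf y (v n)| ∧ |Lf y (v n)| ≤ 1 / h (v (n + 1)) := by
    intro n hn
    obtain ⟨a1, -, a3, a4, a5⟩ := hx n hn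
    simp only [hv]
    exact ⟨a1, a3, a4, a5⟩
  have hv0 : h (v 0) ≤ X := by rw [hv]; exact hx0
  have hvk : |Lf y (v k)| ≤ 1 / Y := by rw [hv]; exact hxk
  -- independence
  have hind : ∀ n < k, cr0 (v n) (v (n + 1)) ≠ 0 ∨ cr1 (v n) (v (n + 1)) ≠ 0 ∨
      cr2 (v n) (v (n + 1)) ≠ 0 := by
    intro n hn
    by_contra hcon
    obtain ⟨-, b1, b2, -⟩ := hx' n hn
    have hle : ∀ i, |(v (n + 1) i : ℝ)| ≤ |(v n i : ℝ)| := by
      intro i
      have e1 := congrArg abs (lf_parallel y (v n) (v (n + 1)) hcon i)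
      rw [abs_mul, abs_mul] at e1
      have e2 : 0 < |Lf y (v n)| := lt_of_le_of_lt (abs_nonneg _) b2
      have e3 : |(v (n + 1) i : ℝ)| * |Lf y (v n)| ≤ |(v n i : ℝ)| * |Lf y (v n)| := by
        rw [e1]
        exact mul_le_mul_of_nonneg_left b2.le (abs_nonneg _)
      exact le_of_mul_le_mul_right e3 e2
    have c1 : |(v (n + 1) 1 : ℝ)| ^ β⁻¹ ≤ |(v n 1 : ℝ)| ^ β⁻¹ :=
      Real.rpow_le_rpow (abs_nonneg _) (hle 1) (by positivity)
    have c2 : |(v (n + 1) 2 : ℝ)| ^ γ⁻¹ ≤ |(v n 2 : ℝ)| ^ γ⁻¹ :=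
      Real.rpow_le_rpow (abs_nonneg _) (hle 2) (by positivity)
    have c3 := max_le_max c1 c2
    rw [← hh, ← hh] at c3
    linarith
  -- ratio
  have hr : ∀ n < k, ∀ s : ℝ, S1 ≤ s → s ≤ h (v (n + 1)) → h (v n) ≤ s →
      h (v (n + 1)) ≤ s ^ T := by
    intro n hn s hs hst hhs
    obtain ⟨b0, b1, b2, b3⟩ := hx' n hn
    have hs0 : 0 ≤ s := by linarith
    obtain ⟨a1, a2⟩ := (hhiff (v n) s hs0).mp hhs
    obtain ⟨a3, a4⟩ := (hhiff (v (n + 1)) (h (v (n + 1))) (hh0 _)).mp le_rfl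
    exact hratio s hs _ hst (v n) (v (n + 1)) (hind n hn) a1 a2 a3 a4 b3 (b2.le.trans b3)
  -- determinants
  have hdet : ∀ n, n + 2 ≤ k → det3 (v n) (v (n + 1)) (v (n + 2)) = 0 := by
    intro n hn
    by_contra hne
    obtain ⟨x1, x2, x3, x4⟩ := hx' n (by omega)
    obtain ⟨y1, y2, y3, y4⟩ := hx' (n + 1) (by omega)
    have hs := hr (n + 1) (by omega) (h (v (n + 1))) (by linarith) y2.le le_rfl
    rw [show n + 1 + 1 = n + 2 by ring] at y1 y2 y3 y4 hs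
    have z1 : (1:ℝ) ≤ |((det3 (v n) (v (n + 1)) (v (n + 2)) : ℤ) : ℝ)| := by
      have := Int.one_le_abs hne
      exact_mod_cast this
    obtain ⟨r, hr'⟩ : ∃ r : ℝ, r = h (v n) := ⟨_, rfl⟩
    obtain ⟨s, hs'⟩ : ∃ s : ℝ, s = h (v (n + 1)) := ⟨_, rfl⟩
    obtain ⟨t, ht'⟩ : ∃ t : ℝ, t = h (v (n + 2)) := ⟨_, rfl⟩
    obtain ⟨ra, rb⟩ := (hhiff (v n) r (by rw [hr']; exact hh0 _)).mp hr'.ge
    obtain ⟨sa, sb⟩ := (hhiff (v (n + 1)) s (by rw [hs']; exact hh0 _)).mp hs'.ge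
    obtain ⟨ta, tb⟩ := (hhiff (v (n + 2)) t (by rw [ht']; exact hh0 _)).mp ht'.ge
    rw [← hs'] at x1 x2 x4 y2 hs
    rw [← ht'] at y1 y2 y4 hs
    rw [← hr'] at x2
    have hr0 : 0 ≤ r := by rw [hr']; exact hh0 _
    have hs0 : 0 < s := by linarith
    have hs1 : 1 ≤ s := by linarith
    have ht0 : 0 < t := by linarith
    rw [det3_lf y] at z1
    obtain ⟨P, hP⟩ : ∃ P, P = s ^ β * t ^ γ + s ^ γ * t ^ β := ⟨_, rfl⟩
    have hP0 : 0 ≤ P := by rw [hP]; positivity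
    have rsβ : r ^ β ≤ s ^ β := Real.rpow_le_rpow hr0 x2.le hβ0.le
    have rsγ : r ^ γ ≤ s ^ γ := Real.rpow_le_rpow hr0 x2.le hγ0.le
    have stβ : s ^ β ≤ t ^ β := Real.rpow_le_rpow hs0.le y2.le hβ0.le
    have stγ : s ^ γ ≤ t ^ γ := Real.rpow_le_rpow hs0.le y2.le hγ0.le
    have minor : ∀ (a b : Fin 3 → ℤ), |(a 1 : ℝ)| ≤ s ^ β → |(a 2 : ℝ)| ≤ s ^ γ →
        |(b 1 : ℝ)| ≤ t ^ β → |(b 2 : ℝ)| ≤ t ^ γ →
        |((a 1 * b 2 - a 2 * b 1 : ℤ) : ℝ)| ≤ P := by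
      intro a b a1 a2 b1 b2
      push_cast
      refine (abs_sub _ _).trans ?_
      rw [abs_mul, abs_mul, hP]
      have e1 := mul_le_mul a1 b2 (abs_nonneg _) (by positivity : (0:ℝ) ≤ s ^ β)
      have e2 := mul_le_mul a2 b1 (abs_nonneg _) (by positivity : (0:ℝ) ≤ s ^ γ)
      linarith
    have m1 := minor (v (n + 1)) (v (n + 2)) sa sb ta tb
    have m2 := minor (v n) (v (n + 2)) (ra.trans rsβ) (rb.trans rsγ) ta tb
    have m3 := minor (v n) (v (n + 1)) (ra.trans rsβ) (rb.trans rsγ) (sa.trans stβ) (sb.trans stγ)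
    have L2 : |Lf y (v (n + 1))| ≤ 1 / s := x3.le.trans x4
    have L3 : |Lf y (v (n + 2))| ≤ 1 / s := y3.le.trans L2
    have t1 : |Lf y (v n) * (((v (n + 1)) 1 * (v (n + 2)) 2 - (v (n + 1)) 2 * (v (n + 2)) 1 : ℤ) : ℝ)|
        ≤ 1 / s * P := by
      rw [abs_mul]
      exact mul_le_mul x4 m1 (abs_nonneg _) (by positivity)
    have t2 : |Lf y (v (n + 1)) * (((v n) 1 * (v (n + 2)) 2 - (v n) 2 * (v (n + 2)) 1 : ℤ) : ℝ)|
        ≤ 1 / s * P := by
      rw [abs_mul]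
      exact mul_le_mul L2 m2 (abs_nonneg _) (by positivity)
    have t3 : |Lf y (v (n + 2)) * (((v n) 1 * (v (n + 1)) 2 - (v n) 2 * (v (n + 1)) 1 : ℤ) : ℝ)|
        ≤ 1 / s * P := by
      rw [abs_mul]
      exact mul_le_mul L3 m3 (abs_nonneg _) (by positivity)
    have t4 := abs_add_le
      (Lf y (v n) * (((v (n + 1)) 1 * (v (n + 2)) 2 - (v (n + 1)) 2 * (v (n + 2)) 1 : ℤ) : ℝ) -
        Lf y (v (n + 1)) * (((v n) 1 * (v (n + 2)) 2 - (v n) 2 * (v (n + 2)) 1 : ℤ) : ℝ))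
      (Lf y (v (n + 2)) * (((v n) 1 * (v (n + 1)) 2 - (v n) 2 * (v (n + 1)) 1 : ℤ) : ℝ))
    have t5 := abs_sub
      (Lf y (v n) * (((v (n + 1)) 1 * (v (n + 2)) 2 - (v (n + 1)) 2 * (v (n + 2)) 1 : ℤ) : ℝ))
      (Lf y (v (n + 1)) * (((v n) 1 * (v (n + 2)) 2 - (v n) 2 * (v (n + 2)) 1 : ℤ) : ℝ))
    have hPs : 1 / s * P ≤ 2 * s ^ (-ε) := by
      have e1 : 1 / s = s ^ (-(1:ℝ)) := by rw [Real.rpow_neg_one, one_div]
      have tp : ∀ r : ℝ, 0 ≤ r → t ^ r ≤ s ^ (T * r) := by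
        intro r hr0
        have := Real.rpow_le_rpow ht0.le hs hr0
        rwa [← Real.rpow_mul hs0.le] at this
      have e2 : s ^ (-(1:ℝ)) * (s ^ β * t ^ γ) ≤ s ^ (-ε) := by
        calc s ^ (-(1:ℝ)) * (s ^ β * t ^ γ) ≤ s ^ (-(1:ℝ)) * (s ^ β * s ^ (T * γ)) := by
              have := tp γ hγ0.le
              gcongr
          _ = s ^ (-(1:ℝ) + (β + T * γ)) := by rw [Real.rpow_add hs0, Real.rpow_add hs0]
          _ ≤ s ^ (-ε) := Real.rpow_le_rpow_of_exponent_le hs1 (by rw [hβ, hγ]; linarith)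
      have e3 : s ^ (-(1:ℝ)) * (s ^ γ * t ^ β) ≤ s ^ (-ε) := by
        calc s ^ (-(1:ℝ)) * (s ^ γ * t ^ β) ≤ s ^ (-(1:ℝ)) * (s ^ γ * s ^ (T * β)) := by
              have := tp β hβ0.le
              gcongr
          _ = s ^ (-(1:ℝ) + (γ + T * β)) := by rw [Real.rpow_add hs0, Real.rpow_add hs0]
          _ ≤ s ^ (-ε) := Real.rpow_le_rpow_of_exponent_le hs1 (by rw [hβ, hγ]; linarith)
      rw [e1, hP, mul_add]
      linarith
    have g3 : 7 ≤ s ^ ε := by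
      have k1 : (7 ^ (1 / ε)) ^ ε ≤ s ^ ε :=
        Real.rpow_le_rpow (by positivity) (by linarith) hε0.le
      rw [← Real.rpow_mul (by norm_num), one_div_mul_cancel hε0.ne', Real.rpow_one] at k1
      exact k1
    have g4 : s ^ (-ε) ≤ 1 / 7 := by
      rw [Real.rpow_neg hs0.le, ← one_div]
      exact one_div_le_one_div_of_le (by norm_num) g3
    linarith
  rcases Nat.eq_zero_or_pos k with hk | hk
  · rw [hk] at hvk
    refine ⟨v 0, hvne 0, fun i => (hent (v 0) X hX1.le (hvL 0) hv0 i).trans ?_, hvk⟩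
    calc M * X ≤ X * X := mul_le_mul_of_nonneg_right hMX hX0.le
      _ = X ^ (2:ℝ) := by rw [Real.rpow_two]; ring
      _ ≤ X ^ C := Real.rpow_le_rpow_of_exponent_le hX1.le (by linarith)
  · have hh1 : h (v 1) ≤ X ^ T := hr 0 (by omega) X (by linarith) (hx' 0 (by omega)).1.le hv0
    have hpl := planar_fin v k (fun n hn => hind n (by omega)) hdet
    obtain ⟨w, hw0, hw1, hw2⟩ : ∃ w : Fin 3 → ℤ, w 0 = cr0 (v 0) (v 1) ∧
        w 1 = cr1 (v 0) (v 1) ∧ w 2 = cr2 (v 0) (v 1) := ⟨![_, _, _], rfl, rfl, rfl⟩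
    rw [← hw0, ← hw1, ← hw2] at hpl
    have hXT1 : 1 ≤ X ^ T := Real.one_le_rpow hX1.le (by linarith)
    have hcr := cr_le (v 0) (v 1) (M * X) (M * X ^ T)
      (hent (v 0) X hX1.le (hvL 0) hv0) (hent (v 1) (X ^ T) hXT1 (hvL 1) hh1)
    rw [← hw0, ← hw1, ← hw2] at hcr
    obtain ⟨W, hW⟩ : ∃ W, W = 2 * (M * X * (M * X ^ T)) := ⟨_, rfl⟩
    rw [← hW] at hcr
    have hwW : ∀ i, |(w i : ℝ)| ≤ W := by
      intro i
      fin_cases i
      · exact hcr.1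
      · exact hcr.2.1
      · exact hcr.2.2
    have hXT0 : 0 < X ^ T := by positivity
    have hW1 : 1 ≤ W := by
      rw [hW]
      have e1 : 1 ≤ M * X := by nlinarith
      have e2 : 1 ≤ M * X ^ T := by nlinarith
      nlinarith
    have hW2 : W ≤ X ^ (2 + T) := by
      have : X ^ (2 + T) = X * (X * X ^ T) := by
        rw [Real.rpow_add hX0, show (2:ℝ) = 1 + 1 by norm_num, Real.rpow_add hX0, Real.rpow_one]
        ring
      rw [this, hW]
      have h5 : 4 * M ^ 2 ≤ X := by linarith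
      have h6 : 0 ≤ X * X ^ T := by positivity
      nlinarith
    obtain ⟨j, rfl⟩ : ∃ j, k = j + 1 := ⟨k - 1, by omega⟩
    obtain ⟨z1, z2, z3, z4⟩ := hx' j (by omega)
    obtain ⟨H, hH⟩ : ∃ H, H = h (v (j + 1)) := ⟨_, rfl⟩
    rw [← hH] at z1 z2 z4
    have hH0 : 0 < H := by linarith
    have hH1 : 1 ≤ H := by linarith
    obtain ⟨a1, a2⟩ := (hhiff (v j) H hH0.le).mp z2.le
    obtain ⟨a3, a4⟩ := (hhiff (v (j + 1)) H hH0.le).mp hH.ge
    have hL2 : |Lf y (v (j + 1))| ≤ 1 / H := z3.le.trans z4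
    have hexp : ∀ r : ℝ, r ≤ 1 - μ → ∀ i : Fin 3, |(v j i : ℝ)| ≤ H ^ r →
        |(v (j + 1) i : ℝ)| ≤ H ^ r →
        |(v (j + 1) i : ℝ) * Lf y (v j) - v j i * Lf y (v (j + 1))| ≤ 2 * H ^ (-μ) := by
      intro r hr i e1 e2
      refine (abs_sub _ _).trans ?_
      rw [abs_mul, abs_mul]
      have f1 : |(v (j + 1) i : ℝ)| * |Lf y (v j)| ≤ H ^ r * (1 / H) :=
        mul_le_mul e2 z4 (abs_nonneg _) (by positivity)
      have f2 : |(v j i : ℝ)| * |Lf y (v (j + 1))| ≤ H ^ r * (1 / H) :=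
        mul_le_mul e1 hL2 (abs_nonneg _) (by positivity)
      have f3 : H ^ r * (1 / H) = H ^ (r - 1) := by
        rw [Real.rpow_sub hH0, Real.rpow_one]; ring
      have f4 : H ^ (r - 1) ≤ H ^ (-μ) := Real.rpow_le_rpow_of_exponent_le hH1 (by linarith)
      linarith
    have hp := perp_le y w (v j) (v (j + 1)) W hwW (hind j (by omega)) (hpl j (by omega))
      (hpl (j + 1) le_rfl) (2 * H ^ (-μ)) (hexp β (by linarith) 1 a1 a3)
      (hexp γ (by linarith) 2 a2 a4)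
    have hge := line_ge y w W (2 * H ^ (-μ)) hwW hW1
      (by
        have hi := hind 0 (by omega)
        rw [show 0 + 1 = 1 from rfl, ← hw0, ← hw1, ← hw2] at hi
        exact hi) hp.1 hp.2
    have hHμ : H ^ μ ≤ 1200 * W ^ 3 := by
      have e1 : H ^ μ * H ^ (-μ) = 1 := by
        rw [← Real.rpow_add hH0, add_neg_cancel, Real.rpow_zero]
      have e2 : 0 < H ^ μ := by positivity
      have e3 : H ^ μ * 1 ≤ H ^ μ * (600 * W ^ 3 * (2 * H ^ (-μ))) :=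
        mul_le_mul_of_nonneg_left hge e2.le
      have e4 : H ^ μ * (600 * W ^ 3 * (2 * H ^ (-μ))) = 1200 * W ^ 3 * (H ^ μ * H ^ (-μ)) := by
        ring
      rw [e4, e1] at e3
      linarith
    have hHX : H ^ μ ≤ X ^ (7 + 3 * T) := by
      have e1 : W ^ 3 ≤ (X ^ (2 + T)) ^ 3 := pow_le_pow_left₀ (by linarith) hW2 3
      have e2 : (X ^ (2 + T)) ^ 3 = X ^ (6 + 3 * T) := by
        rw [← Real.rpow_natCast, ← Real.rpow_mul hX0.le]
        congr 1
        push_cast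
        ring
      have e3 : X ^ (7 + 3 * T) = X * X ^ (6 + 3 * T) := by
        rw [show 7 + 3 * T = 1 + (6 + 3 * T) by ring, Real.rpow_add hX0, Real.rpow_one]
      rw [e2] at e1
      rw [e3]
      have e4 : 0 < X ^ (6 + 3 * T) := by positivity
      nlinarith
    have hHX2 : H ≤ X ^ ((7 + 3 * T) / μ) := by
      have e1 : (H ^ μ) ^ (1 / μ) ≤ (X ^ (7 + 3 * T)) ^ (1 / μ) :=
        Real.rpow_le_rpow (by positivity) hHX (by positivity)
      rw [← Real.rpow_mul hH0.le, mul_one_div_cancel hμ0.ne', Real.rpow_one,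
        ← Real.rpow_mul hX0.le, show (7 + 3 * T) * (1 / μ) = (7 + 3 * T) / μ by ring] at e1
      exact e1
    refine ⟨v (j + 1), hvne _, fun i => (hent (v (j + 1)) H hH1 (hvL _) hH.ge i).trans ?_, hvk⟩
    calc M * H ≤ X * X ^ ((7 + 3 * T) / μ) := by
          apply mul_le_mul hMX hHX2 hH0.le hX0.le
      _ = X ^ (1 + (7 + 3 * T) / μ) := by rw [Real.rpow_add hX0, Real.rpow_one]
      _ ≤ X ^ C := Real.rpow_le_rpow_of_exponent_le hX1.le (by linarith)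

end Pool.Agent.H52.WG
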