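import Pool.Agent.H52.WG.Conv

/-!
# Global and local form of the criterion
-/

set_option autoImplicit false

open Real

namespace Pool.Agent.H52.WG

open H3EP

/-- `A` on the range `[X, Y]` gives `B` on the range `[X ^ C, Y ^ (1 / C)]`. -/
private def Imp (C : ℝ) (A B : ℝ → ℝ → Prop) : Prop :=
  ∀ X Y : ℝ, C ≤ X → X ^ C ≤ Y → A X Y → B (X ^ C) (Y ^ (1 / C))

private def Mono (A : ℝ → ℝ → Prop) : Prop :=
  ∀ X Y X' Y' : ℝ, 0 < X → 0 < Y' → X ≤ X' → Y' ≤ Y → A X Y → A X' Y'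

private lemma le_pow_of (X C : ℝ) (hX : 1 ≤ X) (hC : 1 ≤ C) : X ≤ X ^ C := by
  calc X = X ^ (1:ℝ) := (Real.rpow_one X).symm
    _ ≤ X ^ C := Real.rpow_le_rpow_of_exponent_le hX hC

private lemma Imp.weaken {A B : ℝ → ℝ → Prop} {C C' : ℝ} (hB : Mono B) (hC : 1 ≤ C)
    (h : Imp C A B) (hCC : C ≤ C') : Imp C' A B := by
  intro X Y h1 h2 h3
  have hX1 : 1 ≤ X := by linarith
  have hX0 : 0 < X := by linarith
  have hC'1 : 1 ≤ C' := by linarith
  have hpX : X ^ C ≤ X ^ C' := Real.rpow_le_rpow_of_exponent_le hX1 hCC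
  have hY1 : 1 ≤ Y := (hX1.trans (le_pow_of X C' hX1 hC'1)).trans h2
  have hY0 : 0 < Y := by linarith
  have h4 := h X Y (hCC.trans h1) (hpX.trans h2) h3
  exact hB _ _ _ _ (by positivity) (by positivity) hpX
    (Real.rpow_le_rpow_of_exponent_le hY1 (one_div_le_one_div_of_le (by linarith) hCC)) h4

private lemma Imp.comp {A B D : ℝ → ℝ → Prop} {K : ℝ} (hD : Mono D) (hK : 1 ≤ K)
    (h1 : Imp K A B) (h2 : Imp K B D) : Imp (K * K * K) A D := by
  intro X Y h3 h4 h5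
  have K0 : 0 < K := by linarith
  have K2 : K ≤ K * K := by nlinarith
  have K3 : K * K ≤ K * K * K := by nlinarith
  have hKX : K ≤ X := by linarith
  have hX1 : 1 ≤ X := hK.trans hKX
  have hX0 : 0 < X := by linarith
  have hKY : X ^ K ≤ Y :=
    (Real.rpow_le_rpow_of_exponent_le hX1 (by linarith)).trans h4
  have hXK : K ≤ X ^ K := hKX.trans (le_pow_of X K hX1 hK)
  have hY1 : 1 ≤ Y := (hK.trans hXK).trans hKY
  have hY0 : 0 < Y := by linarith
  have hsec : (X ^ K) ^ K ≤ Y ^ (1 / K) := by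
    have e1 : (X ^ (K * K * K)) ^ (1 / K) ≤ Y ^ (1 / K) :=
      Real.rpow_le_rpow (by positivity) h4 (by positivity)
    rw [← Real.rpow_mul hX0.le] at e1
    rw [← Real.rpow_mul hX0.le]
    have e2 : K * K * K * (1 / K) = K * K := by field_simp
    rwa [e2] at e1
  have eX2 : (X ^ K) ^ K ≤ X ^ (K * K * K) := by
    rw [← Real.rpow_mul hX0.le]
    exact Real.rpow_le_rpow_of_exponent_le hX1 K3
  have eY2 : Y ^ (1 / (K * K * K)) ≤ (Y ^ (1 / K)) ^ (1 / K) := by
    rw [← Real.rpow_mul hY0.le]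
    apply Real.rpow_le_rpow_of_exponent_le hY1
    have e2 : 1 / K * (1 / K) = 1 / (K * K) := by field_simp
    rw [e2]
    exact one_div_le_one_div_of_le (by positivity) K3
  exact hD _ _ _ _ (by positivity) (by positivity) eX2 eY2
    (h2 (X ^ K) (Y ^ (1 / K)) hXK hsec (h1 X Y hKX hKY h5))

/-- the four conditions -/
private def S (y lam kap : ℝ) : Set (ℝ → ℝ → Prop) :=
  {OneForm y, PairNear y, PairOn y lam kap, FormOn y lam kap}

private lemma mono_S (y lam kap : ℝ) (A : ℝ → ℝ → Prop) (hA : A ∈ S y lam kap) : Mono A := by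
  rcases hA with rfl | rfl | rfl | rfl
  · intro X Y X' Y' _ h2 h3 h4 h5
    exact h5.mono h3 h4 h2
  · intro X Y X' Y' h1 _ h3 h4 h5
    exact h5.mono h1 h3 h4
  · intro X Y X' Y' _ _ h3 h4 h5
    exact h5.mono h3 h4
  · intro X Y X' Y' _ _ h3 h4 h5
    exact h5.mono h3 h4

/-- **Local form.** -/
theorem local_equiv (y lam kap : ℝ) (hl0 : 0 < lam) (hl1 : lam < 1) (hk0 : 0 < kap)
    (hk1 : kap < 1) (h1 : 1 - lam < lam * kap) (h2 : 1 - kap < lam ^ 2) :
    ∃ C : ℝ, 1 ≤ C ∧ ∀ X Y : ℝ, C ≤ X → X ^ C ≤ Y →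
      ∀ A ∈ ({OneForm y, PairNear y, PairOn y lam kap, FormOn y lam kap} :
        Set (ℝ → ℝ → Prop)),
      ∀ B ∈ ({OneForm y, PairNear y, PairOn y lam kap, FormOn y lam kap} :
        Set (ℝ → ℝ → Prop)), A X Y → B (X ^ C) (Y ^ (1 / C)) := by
  have mS := mono_S y lam kap
  have mO : Mono (OneForm y) := mS _ (by simp [S])
  have mN : Mono (PairNear y) := mS _ (by simp [S])
  have mP : Mono (PairOn y lam kap) := mS _ (by simp [S])
  have mF : Mono (FormOn y lam kap) := mS _ (by simp [S])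
  obtain ⟨C1, c1, H1⟩ := sim_local y lam kap hl0 hl1 hk0 hk1 h1 h2
  obtain ⟨C2, c2, H2⟩ := lin_local y lam kap hl0 hl1 hk0 hk1 h1 h2
  obtain ⟨C3, c3, H3⟩ := near_of_form y
  obtain ⟨C4, c4, H4⟩ := form_of_form y lam kap hl0 hl1 hk0 hk1
  obtain ⟨C5, c5, H5⟩ := pair_of_near y lam kap hl0 hl1 hk0 hk1
  have I1 : Imp C1 (PairOn y lam kap) (OneForm y) := H1
  have I2 : Imp C2 (FormOn y lam kap) (OneForm y) := by
    intro X Y h3 h4 h5
    have hX1 : 1 ≤ X := by linarith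
    have hXY : X ≤ Y := (le_pow_of X C2 hX1 c2).trans h4
    have hY1 : 1 ≤ Y := by linarith
    have hY0 : 0 < Y := by linarith
    refine (H2 X Y h3 hXY h5).mono le_rfl ?_ (by positivity)
    calc Y ^ (1 / C2) ≤ Y ^ (1:ℝ) :=
          Real.rpow_le_rpow_of_exponent_le hY1 (by rw [div_le_one (by linarith)]; exact c2)
      _ = Y := Real.rpow_one Y
  have I3 : Imp C3 (OneForm y) (PairNear y) := H3
  have I4 : Imp C4 (OneForm y) (FormOn y lam kap) := H4
  have I5 : Imp C5 (PairNear y) (PairOn y lam kap) := H5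
  have I0 : Imp 1 (OneForm y) (OneForm y) := by
    intro X Y h3 h4 h5
    rw [div_one, Real.rpow_one, Real.rpow_one]
    exact h5
  obtain ⟨K, hK⟩ : ∃ K, K = C1 + C2 + C3 + C4 + C5 := ⟨_, rfl⟩
  have K1 : 1 ≤ K := by linarith
  have J0 : Imp K (OneForm y) (OneForm y) := I0.weaken mO le_rfl K1
  have J1 : Imp K (PairOn y lam kap) (OneForm y) := I1.weaken mO c1 (by linarith)
  have J2 : Imp K (FormOn y lam kap) (OneForm y) := I2.weaken mO c2 (by linarith)
  have J3 : Imp K (OneForm y) (PairNear y) := I3.weaken mN c3 (by linarith)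
  have J4 : Imp K (OneForm y) (FormOn y lam kap) := I4.weaken mF c4 (by linarith)
  have J5 : Imp K (PairNear y) (PairOn y lam kap) := I5.weaken mP c5 (by linarith)
  obtain ⟨L, hL⟩ : ∃ L, L = K * K * K := ⟨_, rfl⟩
  have hKL : K ≤ L := by rw [hL]; nlinarith [mul_pos (by linarith : 0 < K) (by linarith : 0 < K)]
  have L1 : 1 ≤ L := K1.trans hKL
  have toO : ∀ A ∈ S y lam kap, Imp L A (OneForm y) := by
    intro A hA
    rcases hA with rfl | rfl | rfl | rfl
    · exact J0.weaken mO K1 hKL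
    · rw [hL]; exact J5.comp mO K1 J1
    · exact J1.weaken mO K1 hKL
    · exact J2.weaken mO K1 hKL
  have ofO : ∀ A ∈ S y lam kap, Imp L (OneForm y) A := by
    intro A hA
    rcases hA with rfl | rfl | rfl | rfl
    · exact J0.weaken mO K1 hKL
    · exact J3.weaken mN K1 hKL
    · rw [hL]; exact J3.comp mP K1 J5
    · exact J4.weaken mF K1 hKL
  have L2 : L ≤ L * L := by nlinarith
  have L3 : L * L ≤ L * L * L := by nlinarith
  refine ⟨L * L * L, by linarith, ?_⟩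
  intro X Y h3 h4 A hA B hB h5
  exact (toO A hA).comp (mS B hB) L1 (ofO B hB) X Y h3 h4 h5

private lemma not_li_of_rel (y : ℝ) (v : Fin 3 → ℤ) (hv : v ≠ 0)
    (h : (v 0:ℝ) + v 1 * Real.exp 1 + v 2 * y = 0) :
    ¬ LinearIndependent ℚ ![(1 : ℝ), Real.exp 1, y] := by
  intro hli
  rw [Fintype.linearIndependent_iff] at hli
  have h1 := hli ![(v 0:ℚ), (v 1:ℚ), (v 2:ℚ)] (by
    simp only [Fin.sum_univ_three, Matrix.cons_val_zero, Matrix.cons_val_one,
      Matrix.cons_val, Rat.smul_def]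
    push_cast
    linarith)
  apply hv
  ext i
  fin_cases i
  · have := h1 0; simpa using this
  · have := h1 1; simpa using this
  · have := h1 2; simpa using this

/-- **Global form.** -/
theorem global_equiv (y lam kap : ℝ) (hl0 : 0 < lam) (hl1 : lam < 1) (hk0 : 0 < kap)
    (hk1 : kap < 1) (h1 : 1 - lam < lam * kap) (h2 : 1 - kap < lam ^ 2)
    (A : ℝ → ℝ → Prop) (hA : A ∈ ({OneForm y, PairNear y, PairOn y lam kap, FormOn y lam kap} :
      Set (ℝ → ℝ → Prop))) :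
    ¬ LinearIndependent ℚ ![(1 : ℝ), Real.exp 1, y] ↔
      ∃ X : ℝ, 1 ≤ X ∧ ∀ Y : ℝ, X ≤ Y → A X Y := by
  obtain ⟨C, hC, hloc⟩ := local_equiv y lam kap hl0 hl1 hk0 hk1 h1 h2
  have hC0 : 0 < C := by linarith
  constructor
  · intro hdep
    obtain ⟨a, b, c, hc, hrel⟩ := (not_li_iff y).mp hdep
    obtain ⟨X0, hX0⟩ : ∃ X0 : ℝ, X0 = max C (max |(a:ℝ)| (max |(b:ℝ)| |(c:ℝ)|)) := ⟨_, rfl⟩
    have hCX : C ≤ X0 := by rw [hX0]; exact le_max_left _ _
    have hmX : max |(a:ℝ)| (max |(b:ℝ)| |(c:ℝ)|) ≤ X0 := by rw [hX0]; exact le_max_right _ _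
    have hX1 : 1 ≤ X0 := by linarith
    have hX1C : 1 ≤ X0 ^ C := hX1.trans (le_pow_of X0 C hX1 hC)
    refine ⟨X0 ^ C, hX1C, ?_⟩
    intro Z hZ
    have hZ1 : 1 ≤ Z := hX1C.trans hZ
    have hZ0 : 0 < Z := by linarith
    have hZC : Z ≤ Z ^ C := le_pow_of Z C hZ1 hC
    have hO : OneForm y X0 (Z ^ C) := by
      refine ⟨![a, b, c], ?_, ?_, ?_⟩
      · intro h0
        have := congrFun h0 2
        simp at this
        omega
      · intro i
        fin_cases i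
        · exact (le_max_left _ _).trans hmX
        · exact ((le_max_left _ _).trans (le_max_right _ _)).trans hmX
        · exact ((le_max_right _ _).trans (le_max_right _ _)).trans hmX
      · have e : (((![a, b, c] : Fin 3 → ℤ) 0 : ℤ) : ℝ) + ((![a, b, c] : Fin 3 → ℤ) 1 : ℤ) *
            Real.exp 1 + ((![a, b, c] : Fin 3 → ℤ) 2 : ℤ) * y = 0 := by
          simpa using hrel
        rw [e, abs_zero]
        positivity
    have h3 := hloc X0 (Z ^ C) hCX (hZ.trans hZC) (OneForm y) (by simp) A hA hO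
    rwa [← Real.rpow_mul hZ0.le, mul_one_div_cancel hC0.ne', Real.rpow_one] at h3
  · rintro ⟨X, hX1, hX⟩
    obtain ⟨X1, hX1'⟩ : ∃ X1 : ℝ, X1 = max X C := ⟨_, rfl⟩
    have hXX : X ≤ X1 := by rw [hX1']; exact le_max_left _ _
    have hCX : C ≤ X1 := by rw [hX1']; exact le_max_right _ _
    have hX11 : 1 ≤ X1 := by linarith
    obtain ⟨N, hN⟩ : ∃ N, N = X1 ^ C := ⟨_, rfl⟩
    have hN1 : 1 ≤ N := by rw [hN]; exact hX11.trans (le_pow_of X1 C hX11 hC)
    -- one small form of bounded height at every scale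
    have hforms : ∀ Z : ℝ, N ≤ Z → OneForm y N Z := by
      intro Z hZ
      have hZ1 : 1 ≤ Z := hN1.trans hZ
      have hZ0 : 0 < Z := by linarith
      have hZC : Z ≤ Z ^ C := le_pow_of Z C hZ1 hC
      have hXZ : X1 ≤ Z ^ C := by
        have := le_pow_of X1 C hX11 hC
        rw [← hN] at this
        linarith
      have hA1 : A X1 (Z ^ C) :=
        mono_S y lam kap A hA X (Z ^ C) X1 (Z ^ C) (by linarith) (by positivity) hXX le_rfl
          (hX (Z ^ C) (hXX.trans hXZ))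
      have h3 := hloc X1 (Z ^ C) hCX (by rw [← hN]; linarith) A hA (OneForm y) (by simp) hA1
      rwa [← Real.rpow_mul hZ0.le, mul_one_div_cancel hC0.ne', Real.rpow_one, ← hN] at h3
    -- a vector with value zero
    by_contra hli
    have hfin : {v : Fin 3 → ℤ | v ≠ 0 ∧ ∀ i, |(v i : ℝ)| ≤ N}.Finite := by
      refine (finite_hgt ⌊N⌋₊).subset ?_
      intro v hv
      exact Nat.le_floor ((hgt_le_iff v N).mpr hv.2)
    obtain ⟨v0, hv0⟩ := hforms N le_rfl
    obtain ⟨w, hw, hwmin⟩ := Set.exists_min_image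
      {v : Fin 3 → ℤ | v ≠ 0 ∧ ∀ i, |(v i : ℝ)| ≤ N}
      (fun v => |(v 0 : ℝ) + v 1 * Real.exp 1 + v 2 * y|) hfin ⟨v0, hv0.1, hv0.2.1⟩
    have hwpos : 0 < |(w 0 : ℝ) + w 1 * Real.exp 1 + w 2 * y| := by
      rw [abs_pos]
      intro h0
      exact not_li_of_rel y w hw.1 h0 hli
    obtain ⟨Z, hZ⟩ : ∃ Z, Z = max N (2 / |(w 0 : ℝ) + w 1 * Real.exp 1 + w 2 * y|) := ⟨_, rfl⟩
    have hZN : N ≤ Z := by rw [hZ]; exact le_max_left _ _
    have hZw : 2 / |(w 0 : ℝ) + w 1 * Real.exp 1 + w 2 * y| ≤ Z := by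
      rw [hZ]; exact le_max_right _ _
    have hZ0 : 0 < Z := by linarith
    obtain ⟨v, hv1, hv2, hv3⟩ := hforms Z hZN
    have h3 := hwmin v ⟨hv1, hv2⟩
    have h4 : |(w 0 : ℝ) + w 1 * Real.exp 1 + w 2 * y| ≤ 1 / Z := h3.trans hv3
    rw [le_div_iff₀ hZ0] at h4
    rw [div_le_iff₀ hwpos] at hZw
    linarith

/-- **Exponent form.** -/
theorem measure_equiv (y lam kap : ℝ) (hl0 : 0 < lam) (hl1 : lam < 1) (hk0 : 0 < kap)
    (hk1 : kap < 1) (h1 : 1 - lam < lam * kap) (h2 : 1 - kap < lam ^ 2)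
    (A : ℝ → ℝ → Prop) (hA : A ∈ ({OneForm y, PairNear y, PairOn y lam kap, FormOn y lam kap} :
      Set (ℝ → ℝ → Prop))) :
    (∃ w : ℝ, ∀ (v : Fin 3 → ℤ) (X : ℝ), v ≠ 0 → 2 ≤ X → (∀ i, |(v i : ℝ)| ≤ X) →
      X ^ (-w) ≤ |v 0 + v 1 * Real.exp 1 + v 2 * y|) ↔
      ∃ W : ℝ, ∀ X : ℝ, W ≤ X → ¬ A X (X ^ W) := by
  obtain ⟨C, hC, hloc⟩ := local_equiv y lam kap hl0 hl1 hk0 hk1 h1 h2
  have hC0 : 0 < C := by linarith
  constructor
  · rintro ⟨w, hw⟩
    obtain ⟨W, hW⟩ : ∃ W, W = max (C + 2) (C * C * w + 1) := ⟨_, rfl⟩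
    have hWC : C + 2 ≤ W := by rw [hW]; exact le_max_left _ _
    have hWw : C * C * w + 1 ≤ W := by rw [hW]; exact le_max_right _ _
    refine ⟨W, ?_⟩
    intro X hX hAX
    have hX3 : 2 ≤ X := by linarith
    have hX1 : 1 < X := by linarith
    have hX0 : 0 < X := by linarith
    have hXC : X ≤ X ^ C := le_pow_of X C hX1.le hC
    have hY0 : 0 < X ^ W := by positivity
    obtain ⟨v, hv1, hv2, hv3⟩ := hloc X (X ^ W) (by linarith)
      (Real.rpow_le_rpow_of_exponent_le hX1.le (by linarith)) A hA (OneForm y) (by simp) hAX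
    have h3 := (hw v (X ^ C) hv1 (by linarith) hv2).trans hv3
    rw [← Real.rpow_mul hX0.le, ← Real.rpow_mul hX0.le, one_div, ← Real.rpow_neg hX0.le] at h3
    have h4 := (Real.rpow_le_rpow_left_iff hX1).mp h3
    have h5 : W * (1 / C) ≤ C * w := by linarith
    rw [mul_one_div, div_le_iff₀ hC0] at h5
    nlinarith
  · rintro ⟨W, hW⟩
    obtain ⟨B, hB⟩ : ∃ B, B = max C (max W 2) := ⟨_, rfl⟩
    have hBC : C ≤ B := by rw [hB]; exact le_max_left _ _
    have hBW : W ≤ B := by rw [hB]; exact (le_max_left _ _).trans (le_max_right _ _)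
    have hB2 : 2 ≤ B := by rw [hB]; exact (le_max_right _ _).trans (le_max_right _ _)
    have hB0 : 0 < B := by linarith
    obtain ⟨m, hm⟩ : ∃ m : ℕ, B ≤ 2 ^ m := by
      obtain ⟨m, hm⟩ := pow_unbounded_of_one_lt B (by norm_num : (1:ℝ) < 2)
      exact ⟨m, hm.le⟩
    obtain ⟨U, hU⟩ : ∃ U, U = C * C * B + C := ⟨_, rfl⟩
    have hU0 : 0 < U := by rw [hU]; positivity
    refine ⟨(m + 1) * U, ?_⟩
    intro v X hv hX hvX
    have hX1 : 1 ≤ X := by linarith
    have hX0 : 0 < X := by linarith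
    obtain ⟨X', hX'⟩ : ∃ X', X' = B * X := ⟨_, rfl⟩
    have hXX' : X ≤ X' := by rw [hX']; nlinarith
    have hBX' : B ≤ X' := by rw [hX']; nlinarith
    have hX'1 : 1 ≤ X' := by linarith
    have hX'0 : 0 < X' := by linarith
    have hX'm : X' ≤ X ^ ((m : ℝ) + 1) := by
      rw [hX', Real.rpow_add hX0, Real.rpow_one, Real.rpow_natCast]
      apply mul_le_mul_of_nonneg_right _ hX0.le
      exact hm.trans (pow_le_pow_left₀ (by norm_num) hX m)
    by_contra hcon
    push Not at hcon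
    have hXU : X' ^ U ≤ X ^ (((m : ℝ) + 1) * U) := by
      rw [Real.rpow_mul hX0.le]
      exact Real.rpow_le_rpow hX'0.le hX'm hU0.le
    have hO : OneForm y X' (X' ^ U) := by
      refine ⟨v, hv, fun i => (hvX i).trans hXX', ?_⟩
      refine hcon.le.trans ?_
      rw [Real.rpow_neg hX0.le, ← one_div]
      exact one_div_le_one_div_of_le (by positivity) hXU
    have hCU : C ≤ U := by rw [hU]; nlinarith [mul_pos hC0 (mul_pos hC0 hB0)]
    have h3 := hloc X' (X' ^ U) (by linarith)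
      (Real.rpow_le_rpow_of_exponent_le hX'1 hCU) (OneForm y) (by simp) A hA hO
    have hWX : W ≤ X' ^ C := by
      have := le_pow_of X' C hX'1 hC
      linarith
    apply hW (X' ^ C) hWX
    refine mono_S y lam kap A hA _ _ _ _ (by positivity) (by positivity) le_rfl ?_ h3
    rw [← Real.rpow_mul hX'0.le, ← Real.rpow_mul hX'0.le]
    apply Real.rpow_le_rpow_of_exponent_le hX'1
    rw [hU, mul_one_div, le_div_iff₀ hC0]
    nlinarith [mul_le_mul_of_nonneg_left hBW (mul_pos hC0 hC0).le]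

end Pool.Agent.H52.WG
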