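import Pool.Agent.H52.WG.Chain
import Pool.Agent.H52.WG.Defs

/-!
# Weighted simultaneous approximation on a range forces a small linear form
-/

set_option autoImplicit false

open Real

namespace Pool.Agent.H52.WG

open H3EP

private lemma dist1_nonneg (x : ℝ) : 0 ≤ dist1 x := abs_nonneg _

/-- A good approximation `q ≤ s` to `e` is not too good. -/
theorem ratio_sim (lam T : ℝ) (hlam : 0 < lam) (hT : 1 < T * lam) :
    ∃ S : ℝ, 1 ≤ S ∧ ∀ s : ℝ, S ≤ s → ∀ q : ℕ, 1 ≤ q → (q:ℝ) ≤ s → ∀ t : ℝ, 0 < t →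
      dist1 (q * Real.exp 1) ≤ (1 / t) ^ lam → t ≤ s ^ T := by
  obtain ⟨A0, hA0⟩ := log_lt_rpow 200 (T * lam - 1) (by norm_num) (by linarith)
  refine ⟨max 1 A0, le_max_left _ _, ?_⟩
  intro s hs q hq hqs t ht hd
  have hs1 : 1 ≤ s := (le_max_left _ _).trans hs
  have hs0 : 0 < s := by linarith
  have hA := hA0 s ((le_max_right _ _).trans hs)
  have hm := abs_add_mul_e (-(round ((q:ℝ) * Real.exp 1))) (q:ℤ) (by omega) s
    (by rw [Int.cast_natCast, abs_of_nonneg (by positivity)]; exact hqs)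
  have e1 : |((-(round ((q:ℝ) * Real.exp 1)) : ℤ) : ℝ) + ((q:ℤ):ℝ) * Real.exp 1|
      = dist1 (q * Real.exp 1) := by
    unfold dist1
    congr 1
    push_cast
    ring
  rw [e1] at hm
  have hl : 0 < Real.log (s + 2) := Real.log_pos (by linarith)
  have h1 : 1 / (200 * s * Real.log (s + 2)) ≤ (1 / t) ^ lam := hm.trans hd
  rw [one_div t, Real.inv_rpow ht.le, ← one_div] at h1
  have htl : 0 < t ^ lam := Real.rpow_pos_of_pos ht _
  have h2 : t ^ lam ≤ 200 * s * Real.log (s + 2) :=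
    (one_div_le_one_div (by positivity) htl).mp h1
  have h3 : 200 * s * Real.log (s + 2) ≤ s * s ^ (T * lam - 1) := by
    have : s * (200 * Real.log (s + 2)) ≤ s * s ^ (T * lam - 1) :=
      mul_le_mul_of_nonneg_left hA.le hs0.le
    linarith
  have h4 : s * s ^ (T * lam - 1) = (s ^ T) ^ lam := by
    rw [← Real.rpow_mul hs0.le]
    nth_rewrite 1 [← Real.rpow_one s]
    rw [← Real.rpow_add hs0]
    congr 1
    ring
  have h5 : t ^ lam ≤ (s ^ T) ^ lam := by rw [← h4]; exact h2.trans h3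
  exact (Real.rpow_le_rpow_iff ht.le (by positivity) hlam).mp h5

private lemma det_bd (q1 q2 q3 d1 d2 d3 f1 f2 f3 A1 A2 A3 B1 B2 B3 : ℝ)
    (hq1 : 0 ≤ q1) (h12 : q1 ≤ q2) (h23 : q2 ≤ q3)
    (hd1 : |d1| ≤ A1) (hd2 : |d2| ≤ A2) (hd3 : |d3| ≤ A3)
    (hf1 : |f1| ≤ B1) (hf2 : |f2| ≤ B2) (hf3 : |f3| ≤ B3)
    (hA32 : A3 ≤ A2) (hA21 : A2 ≤ A1) (hB32 : B3 ≤ B2) (hB21 : B2 ≤ B1) :
    |q1 * (d2 * f3 - d3 * f2) - q2 * (d1 * f3 - d3 * f1) + q3 * (d1 * f2 - d2 * f1)|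
      ≤ 3 * q3 * (A1 * B2 + A2 * B1) := by
  have hA3 : 0 ≤ A3 := (abs_nonneg _).trans hd3
  have hA2 : 0 ≤ A2 := hA3.trans hA32
  have hA1 : 0 ≤ A1 := hA2.trans hA21
  have hB3 : 0 ≤ B3 := (abs_nonneg _).trans hf3
  have hB2 : 0 ≤ B2 := hB3.trans hB32
  have hB1 : 0 ≤ B1 := hB2.trans hB21
  have hq2 : 0 ≤ q2 := hq1.trans h12
  have hq3 : 0 ≤ q3 := hq2.trans h23
  have pr : ∀ a b A B : ℝ, |a| ≤ A → |b| ≤ B → |a * b| ≤ A * B := by
    intro a b A B ha hb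
    rw [abs_mul]
    exact mul_le_mul ha hb (abs_nonneg _) ((abs_nonneg _).trans ha)
  have g0 : 0 ≤ A1 * B2 + A2 * B1 := by positivity
  have t1 : |d2 * f3 - d3 * f2| ≤ A1 * B2 + A2 * B1 := by
    refine (abs_sub _ _).trans ?_
    have := pr _ _ _ _ hd2 hf3
    have := pr _ _ _ _ hd3 hf2
    have : A2 * B3 ≤ A2 * B1 := mul_le_mul_of_nonneg_left (hB32.trans hB21) hA2
    have : A3 * B2 ≤ A1 * B2 := mul_le_mul_of_nonneg_right (hA32.trans hA21) hB2
    linarith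
  have t2 : |d1 * f3 - d3 * f1| ≤ A1 * B2 + A2 * B1 := by
    refine (abs_sub _ _).trans ?_
    have := pr _ _ _ _ hd1 hf3
    have := pr _ _ _ _ hd3 hf1
    have : A1 * B3 ≤ A1 * B2 := mul_le_mul_of_nonneg_left hB32 hA1
    have : A3 * B1 ≤ A2 * B1 := mul_le_mul_of_nonneg_right hA32 hB1
    linarith
  have t3 : |d1 * f2 - d2 * f1| ≤ A1 * B2 + A2 * B1 := by
    refine (abs_sub _ _).trans ?_
    have := pr _ _ _ _ hd1 hf2
    have := pr _ _ _ _ hd2 hf1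
    linarith
  have u1 : |q1 * (d2 * f3 - d3 * f2)| ≤ q3 * (A1 * B2 + A2 * B1) := by
    rw [abs_mul, abs_of_nonneg hq1]
    exact mul_le_mul (h12.trans h23) t1 (abs_nonneg _) hq3
  have u2 : |q2 * (d1 * f3 - d3 * f1)| ≤ q3 * (A1 * B2 + A2 * B1) := by
    rw [abs_mul, abs_of_nonneg hq2]
    exact mul_le_mul h23 t2 (abs_nonneg _) hq3
  have u3 : |q3 * (d1 * f2 - d2 * f1)| ≤ q3 * (A1 * B2 + A2 * B1) := by
    rw [abs_mul, abs_of_nonneg hq3]
    exact mul_le_mul_of_nonneg_left t3 hq3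
  have v1 := abs_add_le (q1 * (d2 * f3 - d3 * f2) - q2 * (d1 * f3 - d3 * f1))
    (q3 * (d1 * f2 - d2 * f1))
  have v2 := abs_sub (q1 * (d2 * f3 - d3 * f2)) (q2 * (d1 * f3 - d3 * f1))
  linarith

private lemma vec_ind (y : ℝ) (q q' : ℕ) (hq : 1 ≤ q) (hqq : q < q')
    (hE : dist1 (q' * Real.exp 1) < dist1 (q * Real.exp 1) ∨
      dist1 (q' * y) < dist1 (q * y)) :
    cr0 (vec y q) (vec y q') ≠ 0 ∨ cr1 (vec y q) (vec y q') ≠ 0 ∨
      cr2 (vec y q) (vec y q') ≠ 0 := by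
  by_contra hcon
  push Not at hcon
  obtain ⟨-, h1, h2⟩ := hcon
  unfold cr1 at h1
  unfold cr2 at h2
  rw [vec0, vec0] at h1 h2
  have h1' : (vec y q 2 : ℝ) * q' - q * vec y q' 2 = 0 := by exact_mod_cast h1
  have h2' : (q:ℝ) * vec y q' 1 - vec y q 1 * q' = 0 := by exact_mod_cast h2
  have hq0 : (0:ℝ) < q := by exact_mod_cast hq
  have hq'0 : (0:ℝ) < q' := by exact_mod_cast (by omega : 0 < q')
  have hlt : (q:ℝ) < q' := by exact_mod_cast hqq
  have e1 : (q':ℝ) * ((q:ℝ) * Real.exp 1 - vec y q 1) = q * ((q':ℝ) * Real.exp 1 - vec y q' 1) := by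
    linear_combination h2'
  have e2 : (q':ℝ) * ((q:ℝ) * y - vec y q 2) = q * ((q':ℝ) * y - vec y q' 2) := by
    linear_combination (-1) * h1'
  have a1 : (q':ℝ) * dist1 (q * Real.exp 1) = q * dist1 (q' * Real.exp 1) := by
    have := congrArg abs e1
    rw [abs_mul, abs_mul, abs_of_pos hq0, abs_of_pos hq'0, vec1, vec1] at this
    exact this
  have a2 : (q':ℝ) * dist1 (q * y) = q * dist1 (q' * y) := by
    have := congrArg abs e2
    rw [abs_mul, abs_mul, abs_of_pos hq0, abs_of_pos hq'0, vec2, vec2] at this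
    exact this
  rcases hE with h | h
  · have h0 := dist1_nonneg (q' * Real.exp 1)
    nlinarith
  · have h0 := dist1_nonneg (q' * y)
    nlinarith

private lemma vec_le (y : ℝ) (q : ℕ) (hq : 1 ≤ q) (i : Fin 3) :
    |(vec y q i : ℝ)| ≤ (|y| + 4) * q := by
  have hq1 : (1:ℝ) ≤ q := by exact_mod_cast hq
  have he := Real.exp_one_lt_d9
  have he0 : 0 < Real.exp 1 := Real.exp_pos 1
  have hy := abs_nonneg y
  have rb : ∀ x : ℝ, |(round x : ℝ)| ≤ |x| + 1 / 2 := by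
    intro x
    have h1 := abs_sub_round x
    have h2 := abs_sub_abs_le_abs_sub (round x : ℝ) x
    rw [abs_sub_comm] at h2
    linarith
  fin_cases i
  · change |(vec y q 0 : ℝ)| ≤ _
    rw [vec0]
    push_cast
    rw [abs_of_nonneg (by linarith)]
    nlinarith
  · change |(vec y q 1 : ℝ)| ≤ _
    rw [vec1]
    refine (rb _).trans ?_
    rw [abs_mul, abs_of_nonneg (by linarith : (0:ℝ) ≤ q), abs_of_pos he0]
    nlinarith
  · change |(vec y q 2 : ℝ)| ≤ _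
    rw [vec2]
    refine (rb _).trans ?_
    rw [abs_mul, abs_of_nonneg (by linarith : (0:ℝ) ≤ q)]
    nlinarith

/-- bound for the cross product -/
theorem cr_le (a b : Fin 3 → ℤ) (A B : ℝ) (ha : ∀ i, |(a i : ℝ)| ≤ A) (hb : ∀ i, |(b i : ℝ)| ≤ B) :
    |(cr0 a b : ℝ)| ≤ 2 * (A * B) ∧ |(cr1 a b : ℝ)| ≤ 2 * (A * B) ∧
      |(cr2 a b : ℝ)| ≤ 2 * (A * B) := by
  have hA : 0 ≤ A := (abs_nonneg _).trans (ha 0)
  have pr : ∀ i j : Fin 3, |(a i : ℝ) * b j| ≤ A * B := by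
    intro i j
    rw [abs_mul]
    exact mul_le_mul (ha i) (hb j) (abs_nonneg _) hA
  refine ⟨?_, ?_, ?_⟩
  · unfold cr0
    push_cast
    refine (abs_sub _ _).trans ?_
    linarith [pr 1 2, pr 2 1]
  · unfold cr1
    push_cast
    refine (abs_sub _ _).trans ?_
    linarith [pr 2 0, pr 0 2]
  · unfold cr2
    push_cast
    refine (abs_sub _ _).trans ?_
    linarith [pr 0 1, pr 1 0]

/-- The exponent `T` of the chains. -/
theorem exists_T (lam kap : ℝ) (hl0 : 0 < lam) (hl1 : lam < 1) (hk1 : kap < 1)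
    (h1 : 1 - lam < lam * kap) (h2 : 1 - kap < lam ^ 2) :
    ∃ T : ℝ, 1 < T ∧ 1 < T * lam ∧ T * (1 - lam) < kap ∧ T * (1 - kap) < lam := by
  have a1 : 1 / lam < kap / (1 - lam) := by
    rw [div_lt_div_iff₀ hl0 (by linarith)]
    linarith [mul_comm lam kap]
  have a2 : 1 / lam < lam / (1 - kap) := by
    rw [div_lt_div_iff₀ hl0 (by linarith)]
    nlinarith
  obtain ⟨T, hT1, hT2⟩ := exists_between (lt_min a1 a2)
  have b0 : 1 < T * lam := by
    rw [div_lt_iff₀ hl0] at hT1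
    exact hT1
  refine ⟨T, ?_, b0, ?_, ?_⟩
  · by_contra hcon
    push Not at hcon
    nlinarith
  · have := hT2.trans_le (min_le_left _ _)
    rwa [lt_div_iff₀ (by linarith)] at this
  · have := hT2.trans_le (min_le_right _ _)
    rwa [lt_div_iff₀ (by linarith)] at this

theorem sim_local (y lam kap : ℝ) (hl0 : 0 < lam) (hl1 : lam < 1) (hk0 : 0 < kap) (hk1 : kap < 1)
    (h1 : 1 - lam < lam * kap) (h2 : 1 - kap < lam ^ 2) :
    ∃ C : ℝ, 1 ≤ C ∧ ∀ X Y : ℝ, C ≤ X → X ^ C ≤ Y → PairOn y lam kap X Y →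
      OneForm y (X ^ C) (Y ^ (1 / C)) := by
  obtain ⟨T, hT1, hTl, hTa, hTb⟩ := exists_T lam kap hl0 hl1 hk1 h1 h2
  obtain ⟨S1, hS1, hratio⟩ := ratio_sim lam T hl0 hTl
  obtain ⟨ε, hε⟩ : ∃ ε, ε = min (lam - T * (1 - kap)) (kap - T * (1 - lam)) := ⟨_, rfl⟩
  have hε0 : 0 < ε := by rw [hε]; exact lt_min (by linarith) (by linarith)
  have hεa : ε ≤ lam - T * (1 - kap) := by rw [hε]; exact min_le_left _ _
  have hεb : ε ≤ kap - T * (1 - lam) := by rw [hε]; exact min_le_right _ _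
  obtain ⟨μ, hμ⟩ : ∃ μ, μ = min lam kap := ⟨_, rfl⟩
  have hμ0 : 0 < μ := by rw [hμ]; exact lt_min hl0 hk0
  have hμa : μ ≤ lam := by rw [hμ]; exact min_le_left _ _
  have hμb : μ ≤ kap := by rw [hμ]; exact min_le_right _ _
  obtain ⟨M, hM⟩ : ∃ M, M = |y| + 4 := ⟨_, rfl⟩
  have hM4 : 4 ≤ M := by rw [hM]; linarith [abs_nonneg y]
  obtain ⟨C, hC⟩ : ∃ C, C = S1 + 7 ^ (1 / ε) + 4 * M ^ 2 + (3 + T) / μ + T + 2 := ⟨_, rfl⟩
  have p1 : (0:ℝ) < 7 ^ (1 / ε) := by positivity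
  have p2 : 0 ≤ 4 * M ^ 2 := by positivity
  have p3 : 0 < (3 + T) / μ := div_pos (by linarith) hμ0
  have hCS : S1 ≤ C := by linarith
  have hC7 : 7 ^ (1 / ε) ≤ C := by linarith
  have hCM : 4 * M ^ 2 ≤ C := by linarith
  have hCμ : (3 + T) / μ ≤ C := by linarith
  have hCT : 2 + T ≤ C := by linarith
  have hC1 : 1 ≤ C := by linarith
  have hC0 : 0 < C := by linarith
  refine ⟨C, hC1, ?_⟩
  intro X Y hCX hXY hcov
  have hX1 : 1 < X := by linarith
  have hX0 : 0 < X := by linarith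
  have hXle : X ≤ Y := by
    refine le_trans ?_ hXY
    nth_rewrite 1 [← Real.rpow_one X]
    exact Real.rpow_le_rpow_of_exponent_le hX1.le hC1
  have hY0 : 0 < Y := by linarith
  have hY1 : 1 < Y := by linarith
  obtain ⟨E, hE⟩ : ∃ E : ℕ → ℝ, ∀ q, E q = dist1 (q * Real.exp 1) := ⟨_, fun _ => rfl⟩
  obtain ⟨F, hF⟩ : ∃ F : ℕ → ℝ, ∀ q, F q = dist1 (q * y) := ⟨_, fun _ => rfl⟩
  have hE0 : ∀ q, 0 ≤ E q := fun q => by rw [hE]; exact dist1_nonneg _
  have hF0 : ∀ q, 0 ≤ F q := fun q => by rw [hF]; exact dist1_nonneg _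
  obtain ⟨l, hl⟩ : ∃ l : ℕ → ℝ, ∀ q, l q = max (E q ^ lam⁻¹) (F q ^ kap⁻¹) :=
    ⟨_, fun _ => rfl⟩
  have hl0' : ∀ q, 0 ≤ l q := fun q => by
    rw [hl]; exact le_max_of_le_left (Real.rpow_nonneg (hE0 q) _)
  have hliff : ∀ (q : ℕ) (t : ℝ), 0 ≤ t → (l q ≤ t ↔ E q ≤ t ^ lam ∧ F q ≤ t ^ kap) := by
    intro q t ht
    rw [hl, max_le_iff, Real.rpow_inv_le_iff_of_pos (hE0 q) ht hl0,
      Real.rpow_inv_le_iff_of_pos (hF0 q) ht hk0]
  have hEl : ∀ q, E q ≤ l q ^ lam := fun q => ((hliff q (l q) (hl0' q)).mp le_rfl).1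
  have hFl : ∀ q, F q ≤ l q ^ kap := fun q => ((hliff q (l q) (hl0' q)).mp le_rfl).2
  obtain ⟨k, x, hx0, -, hx, hxk⟩ := cover_chain (V := {q : ℕ // 1 ≤ q}) (fun v => (v.1 : ℝ))
    (fun v => l v.1)
    (by
      intro N
      have hf : Set.Finite {n : ℕ | n ≤ ⌊N⌋₊} := Set.finite_le_nat _
      refine (hf.preimage (f := (Subtype.val : {q : ℕ // 1 ≤ q} → ℕ))
        Subtype.val_injective.injOn).subset ?_
      intro v hv
      exact Nat.le_floor hv)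
    X Y hX0 hXle
    (by
      intro Q hQ1 hQ2
      obtain ⟨q, hq1, hq2, hq3, hq4⟩ := hcov Q hQ1 hQ2
      have hQ0 : 0 < Q := by linarith
      refine ⟨⟨q, hq1⟩, hq2, (hliff q (1 / Q) (by positivity)).mpr ⟨?_, ?_⟩⟩
      · rw [hE, one_div, Real.inv_rpow hQ0.le, ← Real.rpow_neg hQ0.le]
        exact hq3
      · rw [hF, one_div, Real.inv_rpow hQ0.le, ← Real.rpow_neg hQ0.le]
        exact hq4)
  obtain ⟨q, hq⟩ : ∃ q : ℕ → ℕ, ∀ n, q n = (x n).1 := ⟨_, fun _ => rfl⟩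
  have hqpos : ∀ n, 1 ≤ q n := fun n => by rw [hq]; exact (x n).2
  have hqpos' : ∀ n, (0:ℝ) < q n := fun n => by exact_mod_cast hqpos n
  have hx' : ∀ n < k, X < q (n + 1) ∧ (q n : ℝ) < q (n + 1) ∧ l (q (n + 1)) < l (q n) ∧
      l (q n) ≤ 1 / q (n + 1) := by
    intro n hn
    obtain ⟨a1, -, a3, a4, a5⟩ := hx n hn
    simp only [hq]
    exact ⟨a1, a3, a4, a5⟩
  have hq0 : (q 0 : ℝ) ≤ X := by rw [hq]; exact hx0
  have hqk : l (q k) ≤ 1 / Y := by rw [hq]; exact hxk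
  -- ratio
  have hr : ∀ n < k, ∀ s : ℝ, S1 ≤ s → (q n : ℝ) ≤ s → (q (n + 1) : ℝ) ≤ s ^ T := by
    intro n hn s hs hqs
    apply hratio s hs (q n) (hqpos n) hqs _ (hqpos' _)
    rw [← hE]
    exact ((hliff (q n) _ (by have := hqpos' (n + 1); positivity)).mp (hx' n hn).2.2.2).1
  -- independence
  have hind : ∀ n < k, cr0 (vec y (q n)) (vec y (q (n + 1))) ≠ 0 ∨
      cr1 (vec y (q n)) (vec y (q (n + 1))) ≠ 0 ∨ cr2 (vec y (q n)) (vec y (q (n + 1))) ≠ 0 := by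
    intro n hn
    obtain ⟨-, b1, b2, -⟩ := hx' n hn
    apply vec_ind y (q n) (q (n + 1)) (hqpos n) (by exact_mod_cast b1)
    by_contra hcon
    push Not at hcon
    rw [← hE, ← hE, ← hF, ← hF] at hcon
    rw [hl, hl] at b2
    have c1 : E (q n) ^ lam⁻¹ ≤ E (q (n + 1)) ^ lam⁻¹ :=
      Real.rpow_le_rpow (hE0 _) hcon.1 (by positivity)
    have c2 : F (q n) ^ kap⁻¹ ≤ F (q (n + 1)) ^ kap⁻¹ :=
      Real.rpow_le_rpow (hF0 _) hcon.2 (by positivity)
    exact absurd (max_le_max c1 c2) (not_le.mpr b2)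
  -- determinants
  have hdet : ∀ n, n + 2 ≤ k →
      det3 (vec y (q n)) (vec y (q (n + 1))) (vec y (q (n + 2))) = 0 := by
    intro n hn
    by_contra hne
    obtain ⟨x1, x2, x3, x4⟩ := hx' n (by omega)
    obtain ⟨y1, y2, y3, y4⟩ := hx' (n + 1) (by omega)
    rw [show n + 1 + 1 = n + 2 by ring] at y1 y2 y3 y4
    have hs := hr (n + 1) (by omega) (q (n + 1)) (by linarith) le_rfl
    rw [show n + 1 + 1 = n + 2 by ring] at hs
    have z1 : (1:ℝ) ≤ |((det3 (vec y (q n)) (vec y (q (n + 1))) (vec y (q (n + 2))) : ℤ) : ℝ)| := by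
      have := Int.one_le_abs hne
      exact_mod_cast this
    have e : ((det3 (vec y (q n)) (vec y (q (n + 1))) (vec y (q (n + 2))) : ℤ) : ℝ) =
        (q n:ℝ) * (((q (n + 1):ℝ) * Real.exp 1 - vec y (q (n + 1)) 1) * ((q (n + 2):ℝ) * y - vec y (q (n + 2)) 2)
          - ((q (n + 2):ℝ) * Real.exp 1 - vec y (q (n + 2)) 1) * ((q (n + 1):ℝ) * y - vec y (q (n + 1)) 2))
        - (q (n + 1):ℝ) * (((q n:ℝ) * Real.exp 1 - vec y (q n) 1) * ((q (n + 2):ℝ) * y - vec y (q (n + 2)) 2)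
          - ((q (n + 2):ℝ) * Real.exp 1 - vec y (q (n + 2)) 1) * ((q n:ℝ) * y - vec y (q n) 2))
        + (q (n + 2):ℝ) * (((q n:ℝ) * Real.exp 1 - vec y (q n) 1) * ((q (n + 1):ℝ) * y - vec y (q (n + 1)) 2)
          - ((q (n + 1):ℝ) * Real.exp 1 - vec y (q (n + 1)) 1) * ((q n:ℝ) * y - vec y (q n) 2)) := by
      unfold det3 cr0 cr1 cr2
      rw [vec0, vec0, vec0]
      push_cast
      ring
    have dE : ∀ m, |(q m:ℝ) * Real.exp 1 - vec y (q m) 1| ≤ l (q m) ^ lam := by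
      intro m
      rw [vec1]
      refine le_trans (le_of_eq ?_) (hEl (q m))
      rw [hE]; rfl
    have dF : ∀ m, |(q m:ℝ) * y - vec y (q m) 2| ≤ l (q m) ^ kap := by
      intro m
      rw [vec2]
      refine le_trans (le_of_eq ?_) (hFl (q m))
      rw [hF]; rfl
    have hb := det_bd (q n:ℝ) (q (n + 1)) (q (n + 2)) _ _ _ _ _ _ _ _ _ _ _ _
      (hqpos' n).le x2.le y2.le (dE n) (dE (n + 1)) (dE (n + 2)) (dF n) (dF (n + 1)) (dF (n + 2))
      (Real.rpow_le_rpow (hl0' _) y3.le hl0.le) (Real.rpow_le_rpow (hl0' _) x3.le hl0.le)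
      (Real.rpow_le_rpow (hl0' _) y3.le hk0.le) (Real.rpow_le_rpow (hl0' _) x3.le hk0.le)
    rw [← e] at hb
    obtain ⟨s, hs'⟩ : ∃ s : ℝ, s = q (n + 1) := ⟨_, rfl⟩
    obtain ⟨t, ht'⟩ : ∃ t : ℝ, t = q (n + 2) := ⟨_, rfl⟩
    rw [← hs'] at x4 hs x1
    rw [← ht'] at y4 hs
    have hs0 : 0 < s := by linarith
    have hs1 : 1 ≤ s := by linarith
    have ht0 : 0 < t := by rw [ht']; exact hqpos' _
    have m1 : ∀ r : ℝ, 0 ≤ r → l (q n) ^ r ≤ s ^ (-r) := by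
      intro r hr0
      rw [Real.rpow_neg hs0.le, ← Real.inv_rpow hs0.le, ← one_div]
      exact Real.rpow_le_rpow (hl0' _) x4 hr0
    have m2 : ∀ r : ℝ, 0 ≤ r → r ≤ 1 → t * l (q (n + 1)) ^ r ≤ s ^ (T * (1 - r)) := by
      intro r hr0 hr1
      have f1 : l (q (n + 1)) ^ r ≤ t ^ (-r) := by
        rw [Real.rpow_neg ht0.le, ← Real.inv_rpow ht0.le, ← one_div]
        exact Real.rpow_le_rpow (hl0' _) y4 hr0
      have f2 : t * t ^ (-r) = t ^ (1 - r) := by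
        nth_rewrite 1 [← Real.rpow_one t]
        rw [← Real.rpow_add ht0]
        congr 1
      have f3 : t ^ (1 - r) ≤ (s ^ T) ^ (1 - r) := Real.rpow_le_rpow ht0.le hs (by linarith)
      rw [← Real.rpow_mul hs0.le] at f3
      calc t * l (q (n + 1)) ^ r ≤ t * t ^ (-r) := mul_le_mul_of_nonneg_left f1 ht0.le
        _ = t ^ (1 - r) := f2
        _ ≤ _ := f3
    have g1 : l (q n) ^ lam * (t * l (q (n + 1)) ^ kap) ≤ s ^ (-ε) := by
      calc l (q n) ^ lam * (t * l (q (n + 1)) ^ kap) ≤ s ^ (-lam) * s ^ (T * (1 - kap)) :=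
            mul_le_mul (m1 lam hl0.le) (m2 kap hk0.le hk1.le)
              (mul_nonneg ht0.le (Real.rpow_nonneg (hl0' _) _)) (by positivity)
        _ = s ^ (-lam + T * (1 - kap)) := (Real.rpow_add hs0 _ _).symm
        _ ≤ s ^ (-ε) := Real.rpow_le_rpow_of_exponent_le hs1 (by linarith)
    have g2 : l (q n) ^ kap * (t * l (q (n + 1)) ^ lam) ≤ s ^ (-ε) := by
      calc l (q n) ^ kap * (t * l (q (n + 1)) ^ lam) ≤ s ^ (-kap) * s ^ (T * (1 - lam)) :=
            mul_le_mul (m1 kap hk0.le) (m2 lam hl0.le hl1.le)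
              (mul_nonneg ht0.le (Real.rpow_nonneg (hl0' _) _)) (by positivity)
        _ = s ^ (-kap + T * (1 - lam)) := (Real.rpow_add hs0 _ _).symm
        _ ≤ s ^ (-ε) := Real.rpow_le_rpow_of_exponent_le hs1 (by linarith)
    have g3 : 7 ≤ s ^ ε := by
      have k1 : (7 ^ (1 / ε)) ^ ε ≤ s ^ ε :=
        Real.rpow_le_rpow (by positivity) (by linarith) hε0.le
      rw [← Real.rpow_mul (by norm_num), one_div_mul_cancel hε0.ne', Real.rpow_one] at k1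
      exact k1
    have g4 : s ^ (-ε) ≤ 1 / 7 := by
      rw [Real.rpow_neg hs0.le, ← one_div]
      exact one_div_le_one_div_of_le (by norm_num) g3
    rw [← ht'] at hb
    have g5 : 3 * t * (l (q n) ^ lam * l (q (n + 1)) ^ kap + l (q (n + 1)) ^ lam * l (q n) ^ kap)
        = 3 * (l (q n) ^ lam * (t * l (q (n + 1)) ^ kap)) +
          3 * (l (q n) ^ kap * (t * l (q (n + 1)) ^ lam)) := by ring
    rw [g5] at hb
    linarith
  -- `k ≠ 0`
  have hk : k ≠ 0 := by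
    intro hk
    rw [hk] at hqk
    have h3 : Y ≤ X ^ T := by
      apply hratio X (by linarith) (q 0) (hqpos 0) hq0 Y hY0
      rw [← hE]
      exact ((hliff (q 0) _ (by positivity)).mp hqk).1
    have h4 : X ^ T < X ^ C := Real.rpow_lt_rpow_of_exponent_lt hX1 (by linarith)
    linarith
  have hk1' : 1 ≤ k := Nat.one_le_iff_ne_zero.mpr hk
  have hpl := planar_fin (fun n => vec y (q n)) k (fun n hn => hind n (by omega)) hdet k le_rfl
  have hq1 : (q 1 : ℝ) ≤ X ^ T := hr 0 (by omega) X (by linarith) hq0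
  obtain ⟨v, hv0, hv1, hv2⟩ : ∃ v : Fin 3 → ℤ, v 0 = cr0 (vec y (q 0)) (vec y (q 1)) ∧
      v 1 = cr1 (vec y (q 0)) (vec y (q 1)) ∧ v 2 = cr2 (vec y (q 0)) (vec y (q 1)) :=
    ⟨![_, _, _], rfl, rfl, rfl⟩
  rw [← hv0, ← hv1, ← hv2, vec0] at hpl
  have hcr := cr_le (vec y (q 0)) (vec y (q 1)) ((|y| + 4) * q 0) ((|y| + 4) * q 1)
    (vec_le y _ (hqpos 0)) (vec_le y _ (hqpos 1))
  rw [← hv0, ← hv1, ← hv2, ← hM] at hcr
  obtain ⟨W, hW⟩ : ∃ W, W = 2 * (M * X * (M * X ^ T)) := ⟨_, rfl⟩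
  have hXT : 0 < X ^ T := by positivity
  have hWb : 2 * (M * (q 0 : ℝ) * (M * q 1)) ≤ W := by
    rw [hW]
    have := (hqpos' 0).le
    have := (hqpos' 1).le
    have hM0 : 0 ≤ M := by linarith
    gcongr
  have hvW : ∀ i, |(v i : ℝ)| ≤ W := by
    intro i
    fin_cases i
    · exact hcr.1.trans hWb
    · exact hcr.2.1.trans hWb
    · exact hcr.2.2.trans hWb
  have hW2 : 2 * W ≤ X ^ (2 + T) := by
    have : X ^ (2 + T) = X * (X * X ^ T) := by
      rw [Real.rpow_add hX0, show (2:ℝ) = 1 + 1 by norm_num, Real.rpow_add hX0, Real.rpow_one]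
      ring
    rw [this, hW]
    have h5 : 4 * M ^ 2 ≤ X := by linarith
    have h6 : 0 ≤ X * X ^ T := by positivity
    nlinarith
  have hW0 : 0 ≤ W := (abs_nonneg _).trans (hvW 0)
  have hWC : W ≤ X ^ C := by
    have : X ^ (2 + T) ≤ X ^ C := Real.rpow_le_rpow_of_exponent_le hX1.le hCT
    linarith
  refine ⟨v, ?_, fun i => (hvW i).trans hWC, ?_⟩
  · intro h0
    have hi := hind 0 (by omega)
    rw [show 0 + 1 = 1 from rfl, ← hv0, ← hv1, ← hv2, h0] at hi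
    simp at hi
  · -- the value at `(1, e, y)`
    have hp : (v 0 : ℝ) * q k + v 1 * vec y (q k) 1 + v 2 * vec y (q k) 2 = 0 := by
      exact_mod_cast hpl
    have e : (q k : ℝ) * ((v 0 : ℝ) + v 1 * Real.exp 1 + v 2 * y)
        = v 1 * ((q k:ℝ) * Real.exp 1 - vec y (q k) 1) + v 2 * ((q k:ℝ) * y - vec y (q k) 2) := by
      linear_combination hp
    have hEk : |(q k:ℝ) * Real.exp 1 - vec y (q k) 1| ≤ (1 / Y) ^ μ := by
      rw [vec1]
      have h5 : |(q k:ℝ) * Real.exp 1 - round ((q k:ℝ) * Real.exp 1)| ≤ (1 / Y) ^ lam := by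
        have := ((hliff (q k) _ (by positivity)).mp hqk).1
        rwa [hE] at this
      refine h5.trans (Real.rpow_le_rpow_of_exponent_ge (by positivity) ?_ hμa)
      rw [div_le_one hY0]; exact hY1.le
    have hFk : |(q k:ℝ) * y - vec y (q k) 2| ≤ (1 / Y) ^ μ := by
      rw [vec2]
      have h5 : |(q k:ℝ) * y - round ((q k:ℝ) * y)| ≤ (1 / Y) ^ kap := by
        have := ((hliff (q k) _ (by positivity)).mp hqk).2
        rwa [hF] at this
      refine h5.trans (Real.rpow_le_rpow_of_exponent_ge (by positivity) ?_ hμb)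
      rw [div_le_one hY0]; exact hY1.le
    have hYμ : 0 ≤ (1 / Y) ^ μ := by positivity
    have h6 : (q k : ℝ) * |(v 0 : ℝ) + v 1 * Real.exp 1 + v 2 * y| ≤ 2 * W * (1 / Y) ^ μ := by
      have h7 : (q k : ℝ) * |(v 0 : ℝ) + v 1 * Real.exp 1 + v 2 * y|
          = |v 1 * ((q k:ℝ) * Real.exp 1 - vec y (q k) 1) + v 2 * ((q k:ℝ) * y - vec y (q k) 2)| := by
        rw [← e, abs_mul, abs_of_pos (hqpos' k)]
      rw [h7]
      refine (abs_add_le _ _).trans ?_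
      rw [abs_mul, abs_mul]
      have h8 := mul_le_mul (hvW 1) hEk (abs_nonneg _) hW0
      have h9 := mul_le_mul (hvW 2) hFk (abs_nonneg _) hW0
      linarith
    have h7 : |(v 0 : ℝ) + v 1 * Real.exp 1 + v 2 * y| ≤ 2 * W * (1 / Y) ^ μ := by
      refine le_trans ?_ h6
      have h8 : (1:ℝ) ≤ q k := by exact_mod_cast hqpos k
      nlinarith [abs_nonneg ((v 0 : ℝ) + v 1 * Real.exp 1 + v 2 * y)]
    refine h7.trans ?_
    have hXle' : X ≤ Y ^ (1 / C) := by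
      have h8 : (X ^ C) ^ (1 / C) ≤ Y ^ (1 / C) :=
        Real.rpow_le_rpow (by positivity) hXY (by positivity)
      rw [← Real.rpow_mul hX0.le, mul_one_div_cancel hC0.ne', Real.rpow_one] at h8
      exact h8
    have h8 : 2 * W ≤ Y ^ ((2 + T) / C) := by
      have h9 : X ^ (2 + T) ≤ (Y ^ (1 / C)) ^ (2 + T) :=
        Real.rpow_le_rpow hX0.le hXle' (by linarith)
      rw [← Real.rpow_mul hY0.le, show 1 / C * (2 + T) = (2 + T) / C by ring] at h9
      exact hW2.trans h9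
    calc 2 * W * (1 / Y) ^ μ ≤ Y ^ ((2 + T) / C) * (1 / Y) ^ μ :=
          mul_le_mul_of_nonneg_right h8 hYμ
      _ = Y ^ ((2 + T) / C + (-μ)) := by
          rw [one_div, Real.inv_rpow hY0.le, ← Real.rpow_neg hY0.le, Real.rpow_add hY0]
      _ ≤ Y ^ (-(1 / C)) := by
          apply Real.rpow_le_rpow_of_exponent_le hY1.le
          rw [div_le_iff₀ hμ0] at hCμ
          have : (3 + T) / C ≤ μ := by
            rw [div_le_iff₀ hC0]; linarith [mul_comm C μ]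
          have h9 : (3 + T) / C = (2 + T) / C + 1 / C := by ring
          linarith
      _ = 1 / Y ^ (1 / C) := by
          rw [Real.rpow_neg hY0.le, inv_eq_one_div]

end Pool.Agent.H52.WG
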